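import Pool.Agent.V5helper49.NI.Core

/-!
# Infinite exact patterns along narrow progressions (helper49): the family of test functions, part 3
-/

set_option autoImplicit false

open Finset Filter Topology
open scoped ContDiff

namespace Pool.Agent.V5helper49.NI

open Pool.Agent.H378R2 Pool.Agent.H387R2 Pool.Agent.H387R2.MB Pool.Agent.H362R2.QT
open Pool.Agent.Y520.NP (S_FAMB)

section
variable (ks : ℕ → ℕ)

/-- boundaries of blocks of lengths `ks` -/
def offk (s : ℕ) : ℕ := ∑ i ∈ range s, ks i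

theorem offk_succ (s : ℕ) : offk ks (s + 1) = offk ks s + ks s := by
  unfold offk
  rw [Finset.sum_range_succ]

variable (hk : ∀ s, 1 ≤ ks s)
include hk

theorem offk_mono : StrictMono (offk ks) := by
  apply strictMono_nat_of_lt_succ
  intro s
  rw [offk_succ]
  have := hk s
  omega

theorem exists_blk : ∃ b : ℕ → ℕ, ∀ j, offk ks (b j) ≤ j ∧ j < offk ks (b j + 1) := by
  have h : ∀ j, ∃ s, offk ks s ≤ j ∧ j < offk ks (s + 1) := by
    intro j
    have h1 : ∃ s, j < offk ks (s + 1) := ⟨j, by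
      have := (offk_mono ks hk).le_apply (x := j + 1)
      omega⟩
    classical
    obtain ⟨s, hs⟩ : ∃ s, s = Nat.find h1 := ⟨_, rfl⟩
    refine ⟨s, ?_, by rw [hs]; exact Nat.find_spec h1⟩
    rcases Nat.eq_zero_or_pos s with h0 | h0
    · rw [h0]
      simp [offk]
    · by_contra hcon
      push Not at hcon
      have h2 := Nat.find_min h1 (m := s - 1) (by omega)
      apply h2
      have e : s - 1 + 1 = s := by omega
      rwa [e]
  choose b hb using h
  exact ⟨b, hb⟩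

theorem blk_uniq {b : ℕ → ℕ} (hb : ∀ j, offk ks (b j) ≤ j ∧ j < offk ks (b j + 1)) {j s : ℕ}
    (h1 : offk ks s ≤ j) (h2 : j < offk ks (s + 1)) : b j = s := by
  have hm := offk_mono ks hk
  rcases lt_trichotomy (b j) s with h | h | h
  · have h3 : offk ks (b j + 1) ≤ offk ks s := hm.monotone h
    have := (hb j).2
    omega
  · exact h
  · have h3 : offk ks (s + 1) ≤ offk ks (b j) := hm.monotone h
    have := (hb j).1
    omega

theorem blk_lt {b : ℕ → ℕ} (hb : ∀ j, offk ks (b j) ≤ j ∧ j < offk ks (b j + 1)) {j J : ℕ}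
    (h : j < offk ks J) : b j < J := by
  by_contra hcon
  push Not at hcon
  have h3 := (offk_mono ks hk).monotone hcon
  have := (hb j).1
  omega

theorem sum_blk {b : ℕ → ℕ} (hb : ∀ j, offk ks (b j) ≤ j ∧ j < offk ks (b j + 1)) (F : ℕ → ℝ) (J : ℕ) :
    ∑ j ∈ range (offk ks J), F (b j) = ∑ s ∈ range J, (ks s : ℝ) * F s := by
  induction J with
  | zero => simp [offk]
  | succ J ih =>
    rw [Finset.sum_range_succ, ← ih, offk_succ, Finset.sum_range_add]
    congr 1
    have h1 : ∀ x ∈ range (ks J), F (b (offk ks J + x)) = F J := by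
      intro x hx
      rw [mem_range] at hx
      rw [blk_uniq ks hk hb (j := offk ks J + x) (s := J) (by omega) (by rw [offk_succ]; omega)]
    rw [Finset.sum_congr rfl h1, Finset.sum_const, card_range, nsmul_eq_mul]

end

theorem geo (J : ℕ) : ∑ s ∈ range J, (1 / 2 : ℝ) ^ (s + 2) ≤ 1 / 2 := by
  have : ∀ n : ℕ, ∑ l ∈ range n, (1 / 2 : ℝ) ^ (l + 2) = 1 / 2 - (1 / 2) ^ (n + 1) := by
    intro n
    induction n with
    | zero => norm_num
    | succ n ih => rw [Finset.sum_range_succ, ih]; ring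
  rw [this]
  have : (0 : ℝ) ≤ (1 / 2) ^ (J + 1) := by positivity
  linarith

theorem famb : S_FAMB := by
  classical
  intro η M0 hη hη1
  obtain ⟨Bs, hBs⟩ : ∃ Bs : ℕ → ℕ, Bs = fun s => max 1 ⌈M0 * gam * 2 ^ (s + 3) / η⌉₊ := ⟨_, rfl⟩
  have hB1 : ∀ s, 1 ≤ Bs s := fun s => by rw [hBs]; exact le_max_left _ _
  have hBM : ∀ s, M0 * gam * 2 ^ (s + 3) / η ≤ Bs s := fun s => by
    rw [hBs]
    exact (Nat.le_ceil _).trans (by exact_mod_cast le_max_right _ _)
  obtain ⟨ks, hks⟩ : ∃ ks : ℕ → ℕ, ks = fun s => 2 ^ (Bs s) := ⟨_, rfl⟩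
  have hk1 : ∀ s, 1 ≤ ks s := fun s => by rw [hks]; exact Nat.one_le_two_pow
  have hkr : ∀ s, (ks s : ℝ) = 2 ^ (Bs s) := fun s => by rw [hks]; push_cast; ring
  have hk0 : ∀ s, (0 : ℝ) < ks s := fun s => by exact_mod_cast hk1 s
  have hBr : ∀ s, (1 : ℝ) ≤ Bs s := fun s => by exact_mod_cast hB1 s
  have hBr0 : ∀ s, (0 : ℝ) < Bs s := fun s => by linarith [hBr s]
  obtain ⟨u, hu⟩ : ∃ u : ℕ → ℝ, u = fun s => η / (2 ^ (s + 3) * Bs s * ks s) := ⟨_, rfl⟩
  have hu0 : ∀ s, 0 < u s := fun s => by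
    rw [hu]
    have := hk0 s
    have := hBr0 s
    positivity
  have hu1 : ∀ s, u s * (2 ^ (s + 3) * Bs s * ks s) = η := fun s => by
    rw [hu]
    have := hk0 s
    have := hBr0 s
    field_simp
  refine ⟨offk ks, offk_mono ks hk1, by simp [offk], ?_⟩
  intro J K0 hJ
  obtain ⟨b, hb⟩ := exists_blk ks hk1
  have hbJ : ∀ j : Fin (K0 + 1), b j < J := fun j => blk_lt ks hk1 hb (by rw [hJ]; exact j.2)
  obtain ⟨e⟩ : Nonempty ((Σ s : Fin J, Fin (Bs s)) ≃ Fin (Fintype.card (Σ s : Fin J, Fin (Bs s)))) :=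
    ⟨Fintype.equivFin _⟩
  obtain ⟨B, hB⟩ : ∃ B, B = Fintype.card (Σ s : Fin J, Fin (Bs s)) := ⟨_, rfl⟩
  rw [← hB] at e
  obtain ⟨c, hc⟩ : ∃ c : Fin B → ℝ, c = fun l => 2 ^ (((e.symm l).2 : ℕ) + 1) * u ((e.symm l).1 : ℕ) :=
    ⟨_, rfl⟩
  have hcpos : ∀ l, 0 < c l := fun l => by
    rw [hc]
    have := hu0 ((e.symm l).1 : ℕ)
    positivity
  have hcle' : ∀ (s x : ℕ), x < Bs s → 2 ^ (x + 1) * u s ≤ 1 / 2 := by
    intro s x hx
    have h1 : (2 : ℝ) ^ (x + 1) ≤ 2 ^ (Bs s) := by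
      apply pow_le_pow_right₀ (by norm_num)
      omega
    have h2 : 2 ^ (x + 1) * u s ≤ ks s * u s := by
      rw [hkr]
      exact mul_le_mul_of_nonneg_right h1 (hu0 s).le
    have h3 : (ks s * u s) * (2 ^ (s + 3) * Bs s) = η := by rw [← hu1 s]; ring
    have h4 : (2 : ℝ) ≤ 2 ^ (s + 3) * Bs s := by
      have h5 : (1 : ℝ) ≤ 2 ^ s := one_le_pow₀ (by norm_num)
      have h6 : (2 : ℝ) ^ (s + 3) = 2 ^ s * 8 := by rw [pow_add]; norm_num
      rw [h6]
      nlinarith [hBr s]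
    have h5 : 0 < ks s * u s := mul_pos (hk0 s) (hu0 s)
    nlinarith
  have hcle : ∀ l, c l ≤ 1 / 2 := by
    intro l
    rw [hc]
    exact hcle' _ _ (e.symm l).2.2
  obtain ⟨rho, hrho⟩ : ∃ rho : Fin B → ℝ, rho = fun l => gam / c l := ⟨_, rfl⟩
  have hrhopos : ∀ l, 0 < rho l := fun l => by rw [hrho]; exact div_pos gam_pos (hcpos l)
  have hcr : ∀ l, c l * rho l = gam := by
    intro l
    rw [hrho]
    have := (hcpos l).ne'
    field_simp
  obtain ⟨f, hf⟩ : ∃ f : Fin B → ℝ → ℝ, f = fun l => hs (c l) := ⟨_, rfl⟩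
  have hf0 : ∀ l, f l 0 = 1 := fun l => by rw [hf]; exact hs_at_zero _
  -- the families
  obtain ⟨LL, hLL⟩ : ∃ LL : Fin J → Finset (Fin B), LL = fun s : Fin J =>
    (univ : Finset (Fin (Bs s))).image (fun l' => e ⟨s, l'⟩) := ⟨_, rfl⟩
  have hinj : ∀ s : Fin J, Function.Injective (fun l' : Fin (Bs s) => e ⟨s, l'⟩) := by
    intro s x y hxy
    have h1 := e.injective hxy
    exact eq_of_heq (Sigma.mk.inj h1).2
  have hLLcard : ∀ s : Fin J, ((LL s).card : ℝ) = Bs s := by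
    intro s
    rw [hLL]
    dsimp only
    rw [Finset.card_image_of_injective _ (hinj s), Finset.card_univ, Fintype.card_fin]
  have hLLne : ∀ s : Fin J, (LL s).Nonempty := by
    intro s
    rw [hLL]
    exact ⟨e ⟨s, ⟨0, hB1 s⟩⟩, mem_image.2 ⟨⟨0, hB1 s⟩, mem_univ _, rfl⟩⟩
  have hmemLL : ∀ s : Fin J, ∀ l ∈ LL s, ∃ l' : Fin (Bs s), l = e ⟨s, l'⟩ ∧ c l = 2 ^ ((l' : ℕ) + 1) * u s := by
    intro s l hl
    rw [hLL] at hl
    obtain ⟨l', -, rfl⟩ := mem_image.1 hl
    refine ⟨l', rfl, ?_⟩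
    rw [hc]
    dsimp only
    rw [Equiv.symm_apply_apply]
  obtain ⟨Sg, hSg⟩ : ∃ Sg : ℕ → ℝ, Sg = fun s => ∑ l' ∈ range (Bs s), gam / (2 ^ (l' + 1) * u s) := ⟨_, rfl⟩
  have hSum : ∀ s : Fin J, ∑ l ∈ LL s, rho l = Sg s := by
    intro s
    rw [hLL, hSg]
    dsimp only
    rw [Finset.sum_image (fun x _ y _ h => hinj s h)]
    rw [← Fin.sum_univ_eq_sum_range (fun l' => gam / (2 ^ (l' + 1) * u s)) (Bs s)]
    refine Finset.sum_congr rfl fun l' _ => ?_
    rw [hrho, hc]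
    dsimp only
    rw [Equiv.symm_apply_apply]
  have hSge : ∀ s, gam / (2 * u s) ≤ Sg s := by
    intro s
    rw [hSg]
    have hg := gam_pos
    have h1 := Finset.single_le_sum (f := fun l' => gam / (2 ^ (l' + 1) * u s)) (s := range (Bs s))
      (fun l' _ => by have := hu0 s; positivity) (mem_range.2 (hB1 s))
    dsimp only at h1 ⊢
    have e1 : (2 : ℝ) ^ (0 + 1) = 2 := by norm_num
    rw [e1] at h1
    exact h1
  have hSpos : ∀ s, 0 < Sg s := fun s => lt_of_lt_of_le (div_pos gam_pos (by linarith [hu0 s])) (hSge s)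
  have hSle : ∀ s, Sg s ≤ gam / u s := by
    intro s
    have h1 : Sg s = (gam / u s) * ∑ l ∈ range (Bs s), (1 / 2 : ℝ) ^ (l + 1) := by
      rw [hSg, Finset.mul_sum]
      refine Finset.sum_congr rfl fun l _ => ?_
      rw [one_div, inv_pow]
      have := (hu0 s).ne'
      field_simp
    have h2 : ∑ l ∈ range (Bs s), (1 / 2 : ℝ) ^ (l + 1) ≤ 1 := by
      have : ∀ n : ℕ, ∑ l ∈ range n, (1 / 2 : ℝ) ^ (l + 1) = 1 - (1 / 2) ^ n := by
        intro n
        induction n with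
        | zero => simp
        | succ n ih => rw [Finset.sum_range_succ, ih]; ring
      rw [this]
      have : (0 : ℝ) ≤ (1 / 2) ^ (Bs s) := by positivity
      linarith
    rw [h1]
    have hg := gam_pos
    have hus := hu0 s
    calc (gam / u s) * ∑ l ∈ range (Bs s), (1 / 2 : ℝ) ^ (l + 1) ≤ (gam / u s) * 1 := by
          apply mul_le_mul_of_nonneg_left h2 (by positivity)
      _ = gam / u s := mul_one _
  have hDDLL : ∀ s : Fin J, ∀ l ∈ LL s, ∀ l' ∈ LL s, DD (f l) (f l') = if l = l' then rho l else 0 := by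
    intro s l hl l' hl'
    obtain ⟨x, hx, hcx⟩ := hmemLL s l hl
    obtain ⟨y, hy, hcy⟩ := hmemLL s l' hl'
    have key : ∀ x y : Fin (Bs s), x < y → ∀ l l', c l = 2 ^ ((x : ℕ) + 1) * u s →
        c l' = 2 ^ ((y : ℕ) + 1) * u s → DD (f l) (f l') = 0 := by
      intro x y hxy l l' h1 h2
      rw [hf]
      apply DD_hs_ne (hcpos l)
      rw [h1, h2]
      have h3 : (2 : ℝ) ^ ((x : ℕ) + 1) ≤ 2 ^ (y : ℕ) := pow_le_pow_right₀ (by norm_num) hxy
      have h4 : (2 : ℝ) ^ ((y : ℕ) + 1) = 2 ^ (y : ℕ) * 2 := pow_succ _ _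
      rw [h4]
      nlinarith [hu0 s]
    split_ifs with h
    · subst h
      rw [hf, hrho]
      exact DD_hs_self (hcpos l)
    · have hne : x ≠ y := by
        rintro rfl
        exact h (hx.trans hy.symm)
      rcases lt_or_gt_of_ne hne with h1 | h1
      · exact key x y h1 l l' hcx hcy
      · rw [DD_comm]; exact key y x h1 l' l hcy hcx
  -- the coordinates
  obtain ⟨L, hL⟩ : ∃ L : Fin (K0 + 1) → Finset (Fin B), L = fun j : Fin (K0 + 1) => LL ⟨b j, hbJ j⟩ := ⟨_, rfl⟩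
  have hLcard : ∀ j, ((L j).card : ℝ) = Bs (b j) := fun j => by rw [hL]; exact hLLcard _
  have hLne : ∀ j, (L j).Nonempty := fun j => by rw [hL]; exact hLLne _
  have hLsum : ∀ j, ∑ l ∈ L j, rho l = Sg (b j) := fun j => by rw [hL]; exact hSum _
  have hDD : ∀ j, ∀ l ∈ L j, ∀ l' ∈ L j, DD (f l) (f l') = if l = l' then rho l else 0 := by
    intro j
    rw [hL]
    exact hDDLL _
  have hg := gam_pos
  have hterm : ∀ s, (Bs s : ℝ) * gam / Sg s ≤ η * (1 / 2) ^ (s + 2) / ks s := by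
    intro s
    have h1 : (Bs s : ℝ) * gam / Sg s ≤ Bs s * gam / (gam / (2 * u s)) :=
      div_le_div_of_nonneg_left (by have := hBr0 s; positivity) (by have := hu0 s; positivity) (hSge s)
    refine h1.trans (le_of_eq ?_)
    have h2 := hk0 s
    have h3 := hu0 s
    have h4 : u s = η / (2 ^ (s + 3) * Bs s * ks s) := by rw [hu]
    have h5 := hBr0 s
    have e1 : (Bs s : ℝ) * gam / (gam / (2 * u s)) = Bs s * (2 * u s) := by field_simp
    rw [e1, h4]
    have e2 : (1 / 2 : ℝ) ^ (s + 2) = 1 / 2 ^ (s + 2) := by rw [one_div, one_div, inv_pow]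
    rw [e2, pow_succ (2 : ℝ) (s + 2)]
    field_simp
  have hsumfin : ∀ F : ℕ → ℝ, ∑ j : Fin (K0 + 1), F (b j) = ∑ s ∈ range J, (ks s : ℝ) * F s := by
    intro F
    rw [Fin.sum_univ_eq_sum_range (fun j => F (b j)) (K0 + 1), ← hJ]
    exact sum_blk ks hk1 hb F J
  have hsum2 : ∑ j : Fin (K0 + 1), (η * (1 / 2) ^ (b j + 2) / ks (b j)) ≤ η * (1 / 2) := by
    rw [hsumfin (fun s => η * (1 / 2) ^ (s + 2) / ks s)]
    have : ∀ s ∈ range J, (ks s : ℝ) * (η * (1 / 2) ^ (s + 2) / ks s) = η * (1 / 2) ^ (s + 2) := by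
      intro s _
      have := (hk0 s).ne'
      field_simp
    rw [Finset.sum_congr rfl this, ← Finset.mul_sum]
    exact mul_le_mul_of_nonneg_left (geo J) hη.le
  have hsum : ∑ j, ((L j).card : ℝ) * gam / (∑ l ∈ L j, rho l) ≤ η * (1 / 2) := by
    refine le_trans (Finset.sum_le_sum fun j _ => ?_) hsum2
    rw [hLcard, hLsum]
    exact hterm _
  -- the index set is not empty
  have hAne : (fun j : Fin (K0 + 1) => e ⟨⟨b j, hbJ j⟩, ⟨0, hB1 _⟩⟩) ∈ AA c L 1 := by
    rw [mem_AA]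
    refine ⟨fun j => ?_, ?_⟩
    · rw [hL, hLL]
      exact mem_image.2 ⟨⟨0, hB1 _⟩, mem_univ _, rfl⟩
    · have h1 : ∀ j : Fin (K0 + 1), c (e ⟨⟨b j, hbJ j⟩, ⟨0, hB1 _⟩⟩) ≤
          η * (1 / 2) ^ (b j + 2) / ks (b j) := by
        intro j
        rw [hc]
        dsimp only
        rw [Equiv.symm_apply_apply]
        dsimp only
        obtain ⟨s, hs⟩ : ∃ s, s = b j := ⟨_, rfl⟩
        rw [← hs]
        have h4 : u s = η / (2 ^ (s + 3) * Bs s * ks s) := by rw [hu]
        have h5 := hBr s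
        have h2 := hk0 s
        have e2 : (1 / 2 : ℝ) ^ (s + 2) = 1 / 2 ^ (s + 2) := by rw [one_div, one_div, inv_pow]
        have e3 : (2 : ℝ) ^ (0 + 1) * u s = η * (1 / 2) ^ (s + 2) / ks s / Bs s := by
          rw [e2, h4, pow_succ (2 : ℝ) (s + 2)]
          field_simp
          norm_num
        rw [e3]
        apply div_le_self _ h5
        positivity
      refine (Finset.sum_le_sum fun j _ => h1 j).trans ?_
      refine hsum2.trans ?_
      linarith
  obtain ⟨P, hP⟩ : ∃ P : ℝ, P = ∏ j : Fin (K0 + 1), Sg (b j) := ⟨_, rfl⟩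
  refine ⟨B, f, c, AA c L 1, P, fun s => ks s * (Bs s : ℝ) ^ 2 / Sg s, fun l => by rw [hf]; exact hs_smooth _,
    fun l => by rw [hf]; exact hs_compact (hcpos l), ?_, fun l => ⟨(hcpos l).le, hcle l⟩, ?_, ?_, ?_, ?_, ?_⟩
  · intro l y hy
    rw [hf]
    apply hs_zero (hcpos l)
    exact hy.le.trans (le_abs_self y)
  · intro a ha
    exact (mem_AA.1 ha).2
  · intro l y
    rw [hf]
    exact hs_abs_le _ _
  · exact II_pos L hDD hrhopos 1 _ hAne
  · refine (II_le L hDD hrhopos 1).trans (le_of_eq ?_)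
    rw [hP]
    exact Finset.prod_congr rfl fun j _ => hLsum j
  · intro s hs
    have hkk : (offk ks (s + 1) : ℝ) - offk ks s = ks s := by
      rw [offk_succ]
      push_cast
      ring
    have hSs := hSpos s
    have hkS := hk0 s
    refine ⟨?_, ?_⟩
    · rw [le_div_iff₀ hSs]
      rcases le_total M0 0 with hM | hM
      · have h1 : M0 * Sg s ≤ 0 := mul_nonpos_of_nonpos_of_nonneg hM hSs.le
        have h2 : 0 ≤ (ks s : ℝ) * (Bs s : ℝ) ^ 2 := by positivity
        linarith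
      · have h1 : M0 * gam * 2 ^ (s + 3) ≤ Bs s * η := by
          have := hBM s
          rwa [div_le_iff₀ hη] at this
        have h4 : u s = η / (2 ^ (s + 3) * Bs s * ks s) := by rw [hu]
        have h5 := hBr0 s
        calc M0 * Sg s ≤ M0 * (gam / u s) := mul_le_mul_of_nonneg_left (hSle s) hM
          _ = (M0 * gam * 2 ^ (s + 3)) * (Bs s * ks s) / η := by
              rw [h4]; field_simp
          _ ≤ (Bs s * η) * (Bs s * ks s) / η := by
              apply div_le_div_of_nonneg_right _ hη.le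
              exact mul_le_mul_of_nonneg_right h1 (by positivity)
          _ = ks s * (Bs s : ℝ) ^ 2 := by field_simp
    · intro i hi1 hi2
      have hbi : b i = s := blk_uniq ks hk1 hb hi1 hi2
      rw [hkk]
      have hP1 : P = Sg s * ∏ j : Fin K0, Sg (b (i.succAbove j)) := by
        rw [hP, Fin.prod_univ_succAbove _ i, hbi]
      refine ⟨?_, ?_⟩
      · have h1 := JJ_ge L hf0 hDD hrhopos (fun l => (hcpos l).le) hcle gam hg.le hcr hLne η hsum i
        rw [hLcard i, hbi, Finset.prod_congr rfl (fun j _ => hLsum (i.succAbove j))] at h1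
        have h2 : (1 - η) * (ks s * (Bs s : ℝ) ^ 2 / Sg s) * P =
            ks s * ((1 - η) * (Bs s : ℝ) ^ 2 * ∏ j : Fin K0, Sg (b (i.succAbove j))) := by
          rw [hP1]
          field_simp
        rw [h2]
        exact mul_le_mul_of_nonneg_left h1 hkS.le
      · intro j0 hj1 hj2
        have hbj : b (i.succAbove j0) = s := blk_uniq ks hk1 hb hj1 hj2
        have h1 := JJ2_le (c := c) L hf0 hDD hrhopos 1 i j0
        rw [hLcard i, hLcard (i.succAbove j0), hbi, hbj,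
          Finset.prod_congr rfl (fun j _ => hLsum (i.succAbove j))] at h1
        have hP2 : P = Sg s * (Sg s * ∏ j ∈ (univ : Finset (Fin K0)).erase j0, Sg (b (i.succAbove j))) := by
          rw [hP1, ← Finset.mul_prod_erase univ _ (Finset.mem_univ j0), hbj]
        have h2 : (ks s * (Bs s : ℝ) ^ 2 / Sg s) ^ 2 * P =
            (ks s : ℝ) ^ 2 * ((Bs s : ℝ) ^ 2 * (Bs s : ℝ) ^ 2 *
              ∏ j ∈ (univ : Finset (Fin K0)).erase j0, Sg (b (i.succAbove j))) := by
          rw [hP2]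
          field_simp
        rw [h2]
        exact mul_le_mul_of_nonneg_left h1 (by positivity)

end Pool.Agent.V5helper49.NI
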