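import Pool.Agent.Y520.NP.BM
import Pool.Agent.V5helper49.CB.Pat

/-!
# Infinite exact patterns between cubes (helper49): measures

Adapted from `Pool.Agent.Y520.NP.BM` (helper520).
-/

set_option autoImplicit false

open Finset Filter Topology

namespace Pool.Agent.V5helper49.NI

open Pool.Agent.H361R2.Inf (FMeas)
open Pool.Agent.Y520.NP (S_BLK shifts_inj wt wt_union Std)
open Pool.Agent.V5helper49.CB (CNT CNT_mono CNT_map cnt_of_freq tend_cube)
open Pool.Agent.V5helper49.NR (Nar)

/-- finitely additive measures; sets of positive measure are frequent between cubes -/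
def BMC (K J : ℕ) (blk : ℕ → Finset ℕ) (tot c : ℝ) : Prop := ∃ z : ℕ,
  ∀ (W a0 : ℕ) (t : ℕ → ℕ), Std K z W a0 t →
    ∃ m : Set ℕ → ℝ, FMeas m ∧ m Set.univ ≤ tot ∧
      (∀ s < J, c ≤ m {n | ∃ i ∈ blk s, (n + t i).Prime}) ∧
      ∀ S : Set ℕ, 0 < m S → CNT {n | n ∈ S ∧ n ≡ a0 [MOD W]}

/-- BM -/
theorem bmC (hB : S_BLK) (hN : Nar) : ∃ off : ℕ → ℕ, StrictMono off ∧ off 0 = 0 ∧
    ∀ J : ℕ, BMC (off J) J (fun s => Ico (off s) (off (s + 1))) 2 (1 / 10) := by
  classical
  obtain ⟨off, hoff, h0, hB⟩ := hB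
  refine ⟨off, hoff, h0, fun J => ?_⟩
  obtain ⟨z, hz⟩ := hB J
  refine ⟨z, fun W a0 t hstd => ?_⟩
  obtain ⟨hW, hsq, hWz, hdiff, hcop⟩ := hstd
  obtain ⟨mu, hev, hβ⟩ := hz W a0 t hW hsq hWz hdiff hcop
  have hinj := shifts_inj hW hdiff
  haveI : (map (fun N : ℕ => (N : ℝ) ^ 3 / 3) atTop).NeBot := by infer_instance
  let F : Ultrafilter ℝ := Ultrafilter.of (map (fun N : ℕ => (N : ℝ) ^ 3 / 3) atTop)
  have hF0 : (F : Filter ℝ) ≤ map (fun N : ℕ => (N : ℝ) ^ 3 / 3) atTop := Ultrafilter.of_le _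
  have hF : (F : Filter ℝ) ≤ atTop := hF0.trans tend_cube
  have hevF := hev.filter_mono hF
  have hnn : ∀ A : Set ℕ, ∀ᶠ x in (F : Filter ℝ), 0 ≤ wt mu A x := by
    intro A
    filter_upwards [hevF] with x hx
    exact Finset.sum_nonneg fun n _ => hx.1 n
  have hle : ∀ A : Set ℕ, ∀ᶠ x in (F : Filter ℝ), wt mu A x ≤ 2 := by
    intro A
    filter_upwards [hevF] with x hx
    unfold wt
    exact (Finset.sum_le_sum_of_subset_of_nonneg (Finset.filter_subset _ _)
      fun n _ _ => hx.1 n).trans hx.2.2.1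
  have hlim : ∀ A : Set ℕ, ∃ y : ℝ, y ∈ Set.Icc (0:ℝ) 2 ∧
      Tendsto (wt mu A) (F : Filter ℝ) (𝓝 y) := by
    intro A
    have h1 : (F.map (wt mu A) : Filter ℝ) ≤ 𝓟 (Set.Icc (0:ℝ) 2) := by
      rw [Filter.le_principal_iff, Ultrafilter.mem_coe, Ultrafilter.mem_map]
      filter_upwards [hnn A, hle A] with x h1 h2
      exact ⟨h1, h2⟩
    obtain ⟨y, hy, hy2⟩ := isCompact_Icc.ultrafilter_le_nhds (F.map (wt mu A)) h1
    exact ⟨y, hy, hy2⟩
  choose m hm1 hm2 using hlim
  refine ⟨m, ⟨fun A => (hm1 A).1, fun A B hAB => ?_, fun A hA => ?_⟩, (hm1 _).2,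
    fun s hs => ?_, fun S hS => ?_⟩
  · have h1 : Tendsto (wt mu (A ∪ B)) (F : Filter ℝ) (𝓝 (m A + m B)) := by
      have h2 := (hm2 A).add (hm2 B)
      refine h2.congr fun x => ?_
      rw [wt_union mu A B hAB x]
    exact tendsto_nhds_unique (hm2 _) h1
  · have h1 : Tendsto (wt mu A) (F : Filter ℝ) (𝓝 0) := by
      apply tendsto_const_nhds.congr'
      obtain ⟨M, hM⟩ := hA.bddAbove
      filter_upwards [hevF, hF (eventually_ge_atTop (M : ℝ))] with x hx hxM
      symm
      unfold wt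
      apply Finset.sum_eq_zero
      intro n hn
      by_contra hne
      have h2 := (hx.2.1 n hne).1
      have h3 : n ≤ M := hM (Finset.mem_filter.1 hn).2
      have h4 : (n : ℝ) ≤ M := by exact_mod_cast h3
      linarith
    exact tendsto_nhds_unique (hm2 _) h1
  · refine ge_of_tendsto (hm2 _) ?_
    filter_upwards [hevF] with x hx
    unfold wt
    have h3 := hx.2.2.2 s hs
    refine h3.trans (le_of_eq (Finset.sum_congr ?_ fun _ _ => rfl))
    ext n
    simp only [Finset.mem_filter]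
    exact Iff.rfl
  · obtain ⟨δ, D, hδ, hD, hev2⟩ := hβ (m S / 4) (by linarith)
    set H : Finset ℕ := (range (off J)).image t with hH
    have hcard : H.card = off J := by
      rw [hH, Finset.card_image_of_injOn hinj, card_range]
    refine cnt_of_freq hN H δ (m S / 4 / D) hδ (by positivity) _ ?_
    have hev2F := hev2.filter_mono hF
    have hgt : ∀ᶠ x in (F : Filter ℝ), m S / 2 < wt mu S x :=
      (hm2 S).eventually (lt_mem_nhds (by linarith))
    have he3 : ∀ᶠ x in (F : Filter ℝ), (2 : ℝ) < x := hF (eventually_gt_atTop (2 : ℝ))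
    have hfreq : ∃ᶠ X in (F : Filter ℝ), ∃ A : Finset ℕ,
        m S / 4 / D * X / Real.log X ^ H.card ≤ A.card ∧ ∀ n ∈ A, X < n ∧ (n : ℝ) ≤ 3 * X ∧
          n ∈ {n | n ∈ S ∧ n ≡ a0 [MOD W]} ∧ ∀ s ∈ H, ∀ p : ℕ, p.Prime → p ∣ n + s → X ^ δ < p := by
      apply Filter.Eventually.frequently
      filter_upwards [hevF, hev2F, hgt, he3] with X hX1 hX2 hX3 hX6
      obtain ⟨hmu0, hsupp, -, -⟩ := hX1
      obtain ⟨hnr, hbd⟩ := hX2
      have hlog : 0 < Real.log X := Real.log_pos (by linarith)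
      have hlK : 0 < Real.log X ^ off J := pow_pos hlog _
      have hX0 : 0 < X := by linarith
      set Rgh : ℕ → Prop := fun n => ∀ i < off J, ∀ p : ℕ, p.Prime → p ∣ n + t i → X ^ δ < p with hRgh
      set A : Finset ℕ := (Icc 1 ⌊3 * X⌋₊).filter (fun n => n ∈ S ∧ Rgh n ∧ mu X n ≠ 0) with hA
      -- the mass of `A`
      have hmass : m S / 4 ≤ ∑ n ∈ A, mu X n := by
        have h1 : wt mu S X ≤ ∑ n ∈ A, mu X n +
            ∑ n ∈ (Icc 1 ⌊3 * X⌋₊).filter (fun n => ¬ Rgh n), mu X n := by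
          unfold wt
          have h2 : ∑ n ∈ A, mu X n = ∑ n ∈ (Icc 1 ⌊3 * X⌋₊), if n ∈ S ∧ Rgh n ∧ mu X n ≠ 0 then
              mu X n else 0 := by
            rw [hA, Finset.sum_filter]
          rw [h2, Finset.sum_filter, Finset.sum_filter, ← Finset.sum_add_distrib]
          apply Finset.sum_le_sum
          intro n _
          have h0 := hmu0 n
          by_cases hnS : n ∈ S
          · by_cases hnR : Rgh n
            · by_cases hne : mu X n = 0
              · simp [hne]
              · simp [hnS, hnR, hne]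
            · simp [hnS, hnR]
          · have h3 : ¬ (n ∈ S ∧ Rgh n ∧ mu X n ≠ 0) := fun h => hnS h.1
            rw [if_neg hnS, if_neg h3, zero_add]
            split_ifs
            · exact le_rfl
            · exact h0
        have h3 : ∑ n ∈ (Icc 1 ⌊3 * X⌋₊).filter (fun n => ¬ Rgh n), mu X n ≤ m S / 4 := hnr
        linarith
      have hcardA : m S / 4 / D * X / Real.log X ^ H.card ≤ A.card := by
        rw [hcard]
        have h1 : ∑ n ∈ A, mu X n ≤ A.card * (D * Real.log X ^ off J / X) := by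
          calc ∑ n ∈ A, mu X n ≤ ∑ _n ∈ A, D * Real.log X ^ off J / X := by
                apply Finset.sum_le_sum
                intro n hn
                exact hbd n (Finset.mem_filter.1 hn).2.2.1
            _ = A.card * (D * Real.log X ^ off J / X) := by
                rw [Finset.sum_const, nsmul_eq_mul]
        have h2 : m S / 4 ≤ A.card * (D * Real.log X ^ off J / X) := hmass.trans h1
        rw [div_le_iff₀ hlK, div_mul_eq_mul_div, div_le_iff₀ hD]
        have h3 : m S / 4 * X ≤ A.card * (D * Real.log X ^ off J / X) * X :=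
          mul_le_mul_of_nonneg_right h2 hX0.le
        have h4 : A.card * (D * Real.log X ^ off J / X) * X =
            A.card * Real.log X ^ off J * D := by
          field_simp
        linarith
      refine ⟨A, hcardA, fun n hn => ?_⟩
      have h2 := (Finset.mem_filter.1 hn).2
      have h1 := hsupp n h2.2.2
      refine ⟨h1.1, h1.2.1, ⟨h2.1, h1.2.2⟩, fun h hh p hp hpd => ?_⟩
      obtain ⟨i, hi, rfl⟩ := Finset.mem_image.1 hh
      exact h2.2.1 i (Finset.mem_range.1 hi) p hp hpd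
    have h4 := Filter.frequently_map.1 (hfreq.filter_mono hF0)
    refine h4.mono ?_
    intro N h5 X hX
    have e : X = (N : ℝ) ^ 3 / 3 := by rw [hX]; ring
    rw [e]
    exact h5

end Pool.Agent.V5helper49.NI
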