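import Pool.Agent.Y520.NP.Stm

/-!
# Infinite exact patterns along narrow progressions (helper49): the family of test functions, part 1

Markov's inequality for product weights which depend on the coordinate.
-/

set_option autoImplicit false

open Finset Filter Topology
open scoped ContDiff

namespace Pool.Agent.V5helper49.NI

open Pool.Agent.H378R2

/-- Markov's inequality for a product of weights -/
theorem comb' {K B : ℕ} (w : Fin K → Fin B → ℝ) (c : Fin B → ℝ) (hw : ∀ j l, 0 ≤ w j l)
    (hc : ∀ l, 0 ≤ c l) (S : Fin K → ℝ) (hS : ∀ j, S j = ∑ l, w j l) (hS0 : ∀ j, 0 < S j)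
    (η r : ℝ) (hr : 0 < r) (h : ∑ j, (∑ l, c l * w j l) / S j ≤ η * r) :
    (1 - η) * ∏ j, S j ≤ ∑ a ∈ (univ : Finset (Fin K → Fin B)).filter (fun a => ∑ j, c (a j) ≤ r),
      ∏ j, w j (a j) := by
  classical
  have htot : ∑ a : Fin K → Fin B, ∏ j, w j (a j) = ∏ j, S j := by
    rw [sum_prod_fun w]
    exact Finset.prod_congr rfl fun j _ => (hS j).symm
  have hpnn : ∀ a : Fin K → Fin B, 0 ≤ ∏ j, w j (a j) := fun a =>
    Finset.prod_nonneg fun j _ => hw j _
  have hsplit := Finset.sum_filter_add_sum_filter_not (univ : Finset (Fin K → Fin B))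
    (fun a => ∑ j, c (a j) ≤ r) (fun a => ∏ j, w j (a j))
  rw [htot] at hsplit
  have hbad : (∑ a ∈ (univ : Finset (Fin K → Fin B)).filter (fun a => ¬ ∑ j, c (a j) ≤ r),
      ∏ j, w j (a j)) * r ≤ ∑ a : Fin K → Fin B, (∑ j, c (a j)) * ∏ j, w j (a j) := by
    rw [Finset.sum_mul]
    calc _ ≤ ∑ a ∈ (univ : Finset (Fin K → Fin B)).filter (fun a => ¬ ∑ j, c (a j) ≤ r),
          ((∑ j, c (a j)) * ∏ j, w j (a j)) := by
            refine Finset.sum_le_sum fun a ha => ?_
            rw [Finset.mem_filter, not_le] at ha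
            rw [mul_comm]
            exact mul_le_mul_of_nonneg_right ha.2.le (hpnn a)
      _ ≤ _ := by
            apply Finset.sum_le_sum_of_subset_of_nonneg (Finset.filter_subset _ _)
            intro a _ _
            exact mul_nonneg (Finset.sum_nonneg fun j _ => hc _) (hpnn a)
  have hone : ∀ j : Fin K, (∑ a : Fin K → Fin B, c (a j) * ∏ k, w k (a k)) =
      (∑ l, c l * w j l) / S j * ∏ k, S k := by
    intro j
    have h1 : ∀ a : Fin K → Fin B, c (a j) * ∏ k, w k (a k) =
        ∏ k, (fun (k : Fin K) (l : Fin B) => if k = j then c l * w k l else w k l) k (a k) := by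
      intro a
      rw [← Finset.mul_prod_erase univ _ (Finset.mem_univ j), ← mul_assoc,
        ← Finset.mul_prod_erase univ (fun k => (fun (k : Fin K) (l : Fin B) =>
          if k = j then c l * w k l else w k l) k (a k)) (Finset.mem_univ j)]
      simp only [if_true]
      congr 1
      refine Finset.prod_congr rfl fun k hk => ?_
      rw [if_neg (Finset.ne_of_mem_erase hk)]
    rw [Finset.sum_congr rfl (fun a _ => h1 a),
      sum_prod_fun (fun (k : Fin K) (l : Fin B) => if k = j then c l * w k l else w k l),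
      ← Finset.mul_prod_erase univ _ (Finset.mem_univ j),
      ← Finset.mul_prod_erase univ S (Finset.mem_univ j)]
    simp only [if_true]
    have h2 : ∏ k ∈ univ.erase j, (∑ l : Fin B, if k = j then c l * w k l else w k l) =
        ∏ k ∈ univ.erase j, S k := by
      refine Finset.prod_congr rfl fun k hk => ?_
      simp only [if_neg (Finset.ne_of_mem_erase hk)]
      exact (hS k).symm
    rw [h2]
    have h3 := (hS0 j).ne'
    field_simp
  have hexch : (∑ a : Fin K → Fin B, (∑ j, c (a j)) * ∏ j, w j (a j)) =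
      (∑ j, (∑ l, c l * w j l) / S j) * ∏ k, S k := by
    have : (∑ a : Fin K → Fin B, (∑ j, c (a j)) * ∏ j, w j (a j)) =
        ∑ j : Fin K, ∑ a : Fin K → Fin B, c (a j) * ∏ k, w k (a k) := by
      rw [Finset.sum_comm]
      refine Finset.sum_congr rfl fun a _ => ?_
      rw [Finset.sum_mul]
    rw [this, Finset.sum_congr rfl (fun j _ => hone j), ← Finset.sum_mul]
  have hP0 : 0 ≤ ∏ k, S k := Finset.prod_nonneg fun k _ => (hS0 k).le
  have hb : (∑ a ∈ (univ : Finset (Fin K → Fin B)).filter (fun a => ¬ ∑ j, c (a j) ≤ r),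
      ∏ j, w j (a j)) ≤ η * ∏ k, S k := by
    have h1 : (∑ a ∈ (univ : Finset (Fin K → Fin B)).filter (fun a => ¬ ∑ j, c (a j) ≤ r),
        ∏ j, w j (a j)) * r ≤ (η * ∏ k, S k) * r := by
      calc _ ≤ _ := hbad
        _ = (∑ j, (∑ l, c l * w j l) / S j) * ∏ k, S k := hexch
        _ ≤ (η * r) * ∏ k, S k := mul_le_mul_of_nonneg_right h hP0
        _ = _ := by ring
    exact le_of_mul_le_mul_right h1 hr
  linarith

end Pool.Agent.V5helper49.NI
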