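import Pool.Agent.V5helper49.NI.Comb

/-!
# Infinite exact patterns along narrow progressions (helper49): the family of test functions, part 2
-/

set_option autoImplicit false

open Finset Filter Topology
open scoped ContDiff

namespace Pool.Agent.V5helper49.NI

open Pool.Agent.H378R2 Pool.Agent.H362R2.QT

theorem prodDD {n B : ℕ} {f : Fin B → ℝ → ℝ} {rho : Fin B → ℝ} (L : Fin n → Finset (Fin B))
    (hDD : ∀ j, ∀ l ∈ L j, ∀ l' ∈ L j, DD (f l) (f l') = if l = l' then rho l else 0)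
    (a b : Fin n → Fin B) (ha : ∀ j, a j ∈ L j) (hb : ∀ j, b j ∈ L j) :
    ∏ j, DD (f (a j)) (f (b j)) = if a = b then ∏ j, rho (a j) else 0 := by
  split_ifs with h
  · subst h
    refine Finset.prod_congr rfl fun j _ => ?_
    rw [hDD j _ (ha j) _ (ha j), if_pos rfl]
  · obtain ⟨j, hj⟩ := Function.ne_iff.1 h
    apply Finset.prod_eq_zero (Finset.mem_univ j)
    rw [hDD j _ (ha j) _ (hb j), if_neg hj]

open Classical in
/-- the vectors of indices with `∑ c ≤ r` -/
noncomputable def AA {n B : ℕ} (c : Fin B → ℝ) (L : Fin n → Finset (Fin B)) (r : ℝ) :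
    Finset (Fin n → Fin B) :=
  (Fintype.piFinset L).filter (fun a => ∑ j, c (a j) ≤ r)

theorem mem_AA {n B : ℕ} {c : Fin B → ℝ} {L : Fin n → Finset (Fin B)} {r : ℝ} {a : Fin n → Fin B} :
    a ∈ AA c L r ↔ (∀ j, a j ∈ L j) ∧ ∑ j, c (a j) ≤ r := by
  unfold AA
  rw [mem_filter, Fintype.mem_piFinset]

/-- Markov's inequality -/
theorem comb2' {n B : ℕ} (c rho : Fin B → ℝ) (L : Fin n → Finset (Fin B)) (hrho : ∀ l, 0 < rho l)
    (hc : ∀ l, 0 ≤ c l) (g : ℝ) (hcr : ∀ l, c l * rho l = g) (hL : ∀ j, (L j).Nonempty)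
    (η r : ℝ) (hr : 0 < r)
    (h : ∑ j, ((L j).card : ℝ) * g / (∑ l ∈ L j, rho l) ≤ η * r) :
    (1 - η) * ∏ j, (∑ l ∈ L j, rho l) ≤ ∑ a ∈ AA c L r, ∏ j, rho (a j) := by
  classical
  have hS : ∀ j, (∑ l ∈ L j, rho l) = ∑ l, if l ∈ L j then rho l else 0 := by
    intro j
    rw [← Finset.sum_filter]
    congr 1
    ext l
    simp
  have h1 := comb' (fun j l => if l ∈ L j then rho l else 0) c
    (fun j l => by split_ifs; exacts [(hrho l).le, le_rfl]) hc (fun j => ∑ l ∈ L j, rho l) hS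
    (fun j => Finset.sum_pos (fun l _ => hrho l) (hL j)) η r hr (by
      refine le_trans (le_of_eq ?_) h
      refine Finset.sum_congr rfl fun j _ => ?_
      congr 1
      have : ∀ l, c l * (if l ∈ L j then rho l else 0) = if l ∈ L j then g else 0 := by
        intro l
        split_ifs
        · exact hcr l
        · exact mul_zero _
      rw [Finset.sum_congr rfl (fun l _ => this l), ← Finset.sum_filter, Finset.sum_const,
        nsmul_eq_mul]
      congr 2
      congr 1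
      ext l
      simp)
  refine h1.trans (le_of_eq ?_)
  symm
  have hsub : AA c L r ⊆ (univ : Finset (Fin n → Fin B)).filter (fun a => ∑ j, c (a j) ≤ r) := by
    intro a ha
    exact mem_filter.2 ⟨mem_univ _, (mem_AA.1 ha).2⟩
  rw [← Finset.sum_subset hsub]
  · refine Finset.sum_congr rfl fun a ha => ?_
    refine Finset.prod_congr rfl fun j _ => ?_
    rw [if_pos ((mem_AA.1 ha).1 j)]
  · intro a ha hna
    have h2 : ¬ ∀ j, a j ∈ L j := fun h3 => hna (mem_AA.2 ⟨h3, (mem_filter.1 ha).2⟩)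
    push Not at h2
    obtain ⟨j, hj⟩ := h2
    apply Finset.prod_eq_zero (Finset.mem_univ j)
    rw [if_neg hj]

theorem II_eq {n B : ℕ} {f : Fin B → ℝ → ℝ} {rho c : Fin B → ℝ} (L : Fin n → Finset (Fin B))
    (hDD : ∀ j, ∀ l ∈ L j, ∀ l' ∈ L j, DD (f l) (f l') = if l = l' then rho l else 0) (r : ℝ) :
    II f (AA c L r) = ∑ a ∈ AA c L r, ∏ j, rho (a j) := by
  classical
  unfold II
  refine Finset.sum_congr rfl fun a ha => ?_
  rw [Finset.sum_congr rfl (fun b hb => prodDD L hDD a b (mem_AA.1 ha).1 (mem_AA.1 hb).1)]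
  rw [Finset.sum_ite_eq (AA c L r) a, if_pos ha]

theorem II_le {n B : ℕ} {f : Fin B → ℝ → ℝ} {rho c : Fin B → ℝ} (L : Fin n → Finset (Fin B))
    (hDD : ∀ j, ∀ l ∈ L j, ∀ l' ∈ L j, DD (f l) (f l') = if l = l' then rho l else 0)
    (hrho : ∀ l, 0 < rho l) (r : ℝ) :
    II f (AA c L r) ≤ ∏ j, (∑ l ∈ L j, rho l) := by
  classical
  rw [II_eq L hDD r, Finset.prod_univ_sum]
  unfold AA
  exact Finset.sum_le_sum_of_subset_of_nonneg (Finset.filter_subset _ _)
    (fun a _ _ => Finset.prod_nonneg fun j _ => (hrho _).le)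

theorem II_pos {n B : ℕ} {f : Fin B → ℝ → ℝ} {rho c : Fin B → ℝ} (L : Fin n → Finset (Fin B))
    (hDD : ∀ j, ∀ l ∈ L j, ∀ l' ∈ L j, DD (f l) (f l') = if l = l' then rho l else 0)
    (hrho : ∀ l, 0 < rho l) (r : ℝ) (a : Fin n → Fin B) (ha : a ∈ AA c L r) :
    0 < II f (AA c L r) := by
  rw [II_eq L hDD r]
  exact Finset.sum_pos (fun a _ => Finset.prod_pos fun j _ => hrho _) ⟨a, ha⟩

/-- the first functional -/
theorem JJ_ge {K0 B : ℕ} {f : Fin B → ℝ → ℝ} {rho c : Fin B → ℝ}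
    (L : Fin (K0 + 1) → Finset (Fin B)) (hf0 : ∀ l, f l 0 = 1)
    (hDD : ∀ j, ∀ l ∈ L j, ∀ l' ∈ L j, DD (f l) (f l') = if l = l' then rho l else 0)
    (hrho : ∀ l, 0 < rho l) (hc : ∀ l, 0 ≤ c l) (hc2 : ∀ l, c l ≤ 1 / 2)
    (g : ℝ) (hg : 0 ≤ g) (hcr : ∀ l, c l * rho l = g) (hL : ∀ j, (L j).Nonempty) (η : ℝ)
    (h : ∑ j, ((L j).card : ℝ) * g / (∑ l ∈ L j, rho l) ≤ η * (1 / 2)) (i : Fin (K0 + 1)) :
    (1 - η) * ((L i).card : ℝ) ^ 2 * ∏ j : Fin K0, (∑ l ∈ L (i.succAbove j), rho l) ≤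
      JJ f (AA c L 1) i := by
  classical
  have hS0 : ∀ j, 0 < ∑ l ∈ L j, rho l := fun j => Finset.sum_pos (fun l _ => hrho l) (hL j)
  have h' : ∑ j : Fin K0, ((L (i.succAbove j)).card : ℝ) * g / (∑ l ∈ L (i.succAbove j), rho l) ≤
      η * (1 / 2) := by
    refine le_trans ?_ h
    rw [Fin.sum_univ_succAbove _ i]
    have : 0 ≤ ((L i).card : ℝ) * g / (∑ l ∈ L i, rho l) :=
      div_nonneg (mul_nonneg (Nat.cast_nonneg _) hg) (hS0 i).le
    linarith
  have hcomb := comb2' c rho (fun j => L (i.succAbove j)) hrho hc g hcr (fun j => hL _) η (1 / 2)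
    (by norm_num) h'
  obtain ⟨good, hgood⟩ : ∃ good, good = AA c (fun j => L (i.succAbove j)) (1 / 2) := ⟨_, rfl⟩
  rw [← hgood] at hcomb
  unfold JJ
  simp_rw [hf0, one_mul]
  rw [← Finset.sum_product']
  set φ : (Fin B × Fin B) × (Fin K0 → Fin B) → (Fin (K0 + 1) → Fin B) × (Fin (K0 + 1) → Fin B) :=
    fun x => (i.insertNth (α := fun _ => Fin B) x.1.1 x.2, i.insertNth (α := fun _ => Fin B) x.1.2 x.2) with hφ
  have hmem : ∀ a' ∈ good, ∀ l ∈ L i, (i.insertNth (α := fun _ => Fin B) l a') ∈ AA c L 1 := by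
    intro a' ha' l hl
    rw [hgood, mem_AA] at ha'
    rw [mem_AA]
    refine ⟨?_, ?_⟩
    · intro j
      rcases Fin.eq_self_or_eq_succAbove i j with rfl | ⟨j', rfl⟩
      · rw [Fin.insertNth_apply_same]; exact hl
      · rw [Fin.insertNth_apply_succAbove]; exact ha'.1 j'
    · rw [Fin.sum_univ_succAbove _ i]
      simp only [Fin.insertNth_apply_same, Fin.insertNth_apply_succAbove]
      have h1 := ha'.2
      have h2 := hc2 l
      linarith
  have himg : ((L i ×ˢ L i) ×ˢ good).image φ ⊆ AA c L 1 ×ˢ AA c L 1 := by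
    intro x hx
    rw [Finset.mem_image] at hx
    obtain ⟨y, hy, rfl⟩ := hx
    rw [Finset.mem_product, Finset.mem_product] at hy
    rw [Finset.mem_product]
    exact ⟨hmem _ hy.2 _ hy.1.1, hmem _ hy.2 _ hy.1.2⟩
  have hnn : ∀ x ∈ AA c L 1 ×ˢ AA c L 1, x ∉ ((L i ×ˢ L i) ×ˢ good).image φ →
      0 ≤ ∏ j : Fin K0, DD (f (x.1 (i.succAbove j))) (f (x.2 (i.succAbove j))) := by
    intro x hx _
    rw [Finset.mem_product, mem_AA, mem_AA] at hx
    refine Finset.prod_nonneg fun j _ => ?_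
    rw [hDD _ _ (hx.1.1 _) _ (hx.2.1 _)]
    split_ifs
    · exact (hrho _).le
    · exact le_rfl
  refine le_trans ?_ (Finset.sum_le_sum_of_subset_of_nonneg himg hnn)
  rw [Finset.sum_image]
  · rw [Finset.sum_product]
    have h1 : ∀ x : Fin B × Fin B, ∑ y ∈ good, ∏ j : Fin K0, DD (f ((φ (x, y)).1 (i.succAbove j)))
        (f ((φ (x, y)).2 (i.succAbove j))) = ∑ y ∈ good, ∏ j, rho (y j) := by
      intro x
      refine Finset.sum_congr rfl fun y hy => ?_
      simp only [hφ, Fin.insertNth_apply_succAbove]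
      rw [hgood, mem_AA] at hy
      rw [prodDD (fun j => L (i.succAbove j)) (fun j => hDD _) y y hy.1 hy.1, if_pos rfl]
    rw [Finset.sum_congr rfl (fun x _ => h1 x), Finset.sum_const, Finset.card_product, nsmul_eq_mul]
    push_cast
    have hBB : (0 : ℝ) ≤ ((L i).card : ℝ) * (L i).card := by positivity
    calc (1 - η) * ((L i).card : ℝ) ^ 2 * ∏ j : Fin K0, (∑ l ∈ L (i.succAbove j), rho l) =
        ((L i).card : ℝ) * (L i).card * ((1 - η) * ∏ j : Fin K0, (∑ l ∈ L (i.succAbove j), rho l)) := by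
          ring
      _ ≤ _ := mul_le_mul_of_nonneg_left hcomb hBB
  · intro x _ y _ hxy
    simp only [hφ, Prod.mk.injEq] at hxy
    have h1 := congrFun hxy.1 i
    have h2 := congrFun hxy.2 i
    simp only [Fin.insertNth_apply_same] at h1 h2
    have h3 : x.2 = y.2 := by
      funext j
      have := congrFun hxy.1 (i.succAbove j)
      simpa only [Fin.insertNth_apply_succAbove] using this
    exact Prod.ext (Prod.ext h1 h2) h3

/-- the second functional -/
theorem JJ2_le {K0 B : ℕ} {f : Fin B → ℝ → ℝ} {rho c : Fin B → ℝ}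
    (L : Fin (K0 + 1) → Finset (Fin B)) (hf0 : ∀ l, f l 0 = 1)
    (hDD : ∀ j, ∀ l ∈ L j, ∀ l' ∈ L j, DD (f l) (f l') = if l = l' then rho l else 0)
    (hrho : ∀ l, 0 < rho l) (r : ℝ) (i : Fin (K0 + 1)) (j0 : Fin K0) :
    JJ2 f (AA c L r) i j0 ≤ ((L i).card : ℝ) ^ 2 * ((L (i.succAbove j0)).card : ℝ) ^ 2 *
      ∏ j ∈ (univ : Finset (Fin K0)).erase j0, (∑ l ∈ L (i.succAbove j), rho l) := by
  classical
  unfold JJ2
  simp_rw [hf0, one_mul]
  have hsub : AA c L r ⊆ Fintype.piFinset L := by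
    unfold AA
    exact Finset.filter_subset _ _
  have hnn : ∀ a ∈ Fintype.piFinset L, ∀ b ∈ Fintype.piFinset L,
      0 ≤ ∏ j ∈ (univ : Finset (Fin K0)).erase j0,
          DD (f (a (i.succAbove j))) (f (b (i.succAbove j))) := by
    intro a ha b hb
    rw [Fintype.mem_piFinset] at ha hb
    refine Finset.prod_nonneg fun j _ => ?_
    rw [hDD _ _ (ha _) _ (hb _)]
    split_ifs
    · exact (hrho _).le
    · exact le_rfl
  have h1 : ∑ a ∈ AA c L r, ∑ b ∈ AA c L r, ∏ j ∈ (univ : Finset (Fin K0)).erase j0,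
      DD (f (a (i.succAbove j))) (f (b (i.succAbove j))) ≤
      ∑ a ∈ Fintype.piFinset L, ∑ b ∈ Fintype.piFinset L,
        ∏ j ∈ (univ : Finset (Fin K0)).erase j0,
          DD (f (a (i.succAbove j))) (f (b (i.succAbove j))) := by
    calc _ ≤ ∑ a ∈ AA c L r, ∑ b ∈ Fintype.piFinset L, ∏ j ∈ (univ : Finset (Fin K0)).erase j0,
          DD (f (a (i.succAbove j))) (f (b (i.succAbove j))) :=
          Finset.sum_le_sum fun a ha =>
            Finset.sum_le_sum_of_subset_of_nonneg hsub fun b hb _ => hnn a (hsub ha) b hb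
      _ ≤ _ := Finset.sum_le_sum_of_subset_of_nonneg hsub
            fun a ha _ => Finset.sum_nonneg fun b hb => hnn a ha b hb
  obtain ⟨G, hG⟩ : ∃ G : Fin (K0 + 1) → Fin B → Fin B → ℝ, G = fun (j : Fin (K0 + 1)) (l l' : Fin B) =>
        if j = i then 1 else if j = i.succAbove j0 then 1 else DD (f l) (f l') := ⟨_, rfl⟩
  have h2 : ∀ a b : Fin (K0 + 1) → Fin B, ∏ j ∈ (univ : Finset (Fin K0)).erase j0,
          DD (f (a (i.succAbove j))) (f (b (i.succAbove j))) =
      ∏ j : Fin (K0 + 1), G j (a j) (b j) := by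
    intro a b
    rw [Fin.prod_univ_succAbove _ i]
    simp only [hG, if_true, one_mul]
    rw [← Finset.mul_prod_erase univ _ (Finset.mem_univ j0)]
    simp only [if_true, Fin.succAbove_ne, if_false, one_mul]
    refine Finset.prod_congr rfl fun j hj => ?_
    rw [if_neg]
    intro h
    exact (Finset.ne_of_mem_erase hj) (Fin.succAbove_right_injective h)
  have h3 : ∑ a ∈ Fintype.piFinset L, ∑ b ∈ Fintype.piFinset L,
        ∏ j ∈ (univ : Finset (Fin K0)).erase j0,
          DD (f (a (i.succAbove j))) (f (b (i.succAbove j))) =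
      ∏ j : Fin (K0 + 1), ∑ l ∈ L j, ∑ l' ∈ L j, G j l l' := by
    rw [Finset.prod_univ_sum]
    refine Finset.sum_congr rfl fun a _ => ?_
    rw [Finset.prod_univ_sum]
    refine Finset.sum_congr rfl fun b _ => ?_
    rw [h2]
  have h4 : ∏ j : Fin (K0 + 1), ∑ l ∈ L j, ∑ l' ∈ L j, G j l l' =
      ((L i).card : ℝ) ^ 2 * ((L (i.succAbove j0)).card : ℝ) ^ 2 *
      ∏ j ∈ (univ : Finset (Fin K0)).erase j0, (∑ l ∈ L (i.succAbove j), rho l) := by
    rw [Fin.prod_univ_succAbove _ i]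
    rw [← Finset.mul_prod_erase univ _ (Finset.mem_univ j0), ← mul_assoc]
    congr 1
    · simp only [hG, if_true, Fin.succAbove_ne, if_false]
      simp only [Finset.sum_const, nsmul_eq_mul, mul_one]
      ring
    · refine Finset.prod_congr rfl fun j hj => ?_
      have hne : ¬ i.succAbove j = i.succAbove j0 := fun h =>
        (Finset.ne_of_mem_erase hj) (Fin.succAbove_right_injective h)
      simp only [hG, Fin.succAbove_ne, if_false, if_neg hne]
      refine Finset.sum_congr rfl fun l hl => ?_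
      rw [Finset.sum_congr rfl (fun l' hl' => hDD _ l hl l' hl'), Finset.sum_ite_eq, if_pos hl]
  rw [h3, h4] at h1
  exact h1

end Pool.Agent.V5helper49.NI
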