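import Pool.Agent.V5helper49.NI.InfC
import Pool.Agent.H38R3.Ellentuck

/-!
# Infinite exact patterns between cubes (helper49): all subsets

Adapted from `Pool.Agent.W68.Her`.
-/

set_option autoImplicit false

open Finset Filter Topology
open scoped Nat

namespace Pool.Agent.V5helper49.NI.C

open Pool.Agent.V5helper49.CB (CNT CNT_mono CNT_map)
open Pool.Agent.H361R2.Inf (exists_seq avoid)
open Pool.Agent.H38R3.Ell

/-- the coloured pattern `E` at `x`, up to distance `R` -/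
def At (r : ℕ) (χ : ℕ → Fin (r + 1)) (q : ℕ) (a : ℤ) (E : Set ℤ) (γ : ℤ → Fin (r + 1)) (R : ℕ) : Set ℕ :=
  {x : ℕ | (x : ℤ) ≡ a [ZMOD q] ∧ ∀ y : ℤ, |y| ≤ R →
    (Nat.Prime ((x : ℤ) + y).toNat ↔ y ∈ E) ∧ (y ∈ E → χ ((x : ℤ) + y).toNat = γ y)}

/-- `E` is an exact coloured pattern along narrow progressions -/
def ExN (r : ℕ) (χ : ℕ → Fin (r + 1)) (q : ℕ) (a : ℤ) (E : Set ℤ) : Prop :=
  ∀ R : ℕ, ∃ γ : ℤ → Fin (r + 1), CNT (At r χ q a E γ R)

/-- the measures -/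
def S_C : Prop := ∃ off : ℕ → ℕ, StrictMono off ∧ off 0 = 0 ∧
    ∀ J : ℕ, BMC (off J) J (fun s => Ico (off s) (off (s + 1))) 2 (1 / 10)

variable {r : ℕ} {χ : ℕ → Fin (r + 1)} {q : ℕ} {a : ℤ}

theorem at_congr {E E' : Set ℤ} {R : ℕ} (γ : ℤ → Fin (r + 1)) (h : ∀ y : ℤ, |y| ≤ R → (y ∈ E ↔ y ∈ E')) :
    At r χ q a E γ R ⊆ At r χ q a E' γ R := by
  rintro x ⟨hx1, hx2⟩
  refine ⟨hx1, fun y hy => ?_⟩
  obtain ⟨h1, h2⟩ := hx2 y hy
  exact ⟨h1.trans (h y hy), fun h3 => h2 ((h y hy).2 h3)⟩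

theorem congrN {E E' : Set ℤ} {R : ℕ} (h : ∀ y : ℤ, |y| ≤ R → (y ∈ E ↔ y ∈ E'))
    (hE : ∃ γ : ℤ → Fin (r + 1), CNT (At r χ q a E γ R)) :
    ∃ γ : ℤ → Fin (r + 1), CNT (At r χ q a E' γ R) := by
  obtain ⟨γ, hγ⟩ := hE
  exact ⟨γ, CNT_mono (at_congr γ h) hγ⟩

theorem preimage_bdd {F : ℕ → ℤ} (hF : Function.Injective F) (R : ℕ) :
    ∃ N : ℕ, ∀ i, |F i| ≤ R → i < N := by
  have h1 : (F ⁻¹' (Set.Icc (-(R : ℤ)) R)).Finite := (Set.finite_Icc _ _).preimage hF.injOn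
  obtain ⟨N, hN⟩ := h1.bddAbove
  exact ⟨N + 1, fun i hi => Nat.lt_succ_of_le (hN (abs_le.1 hi))⟩

/-- the sets of indices whose shifts are not a pattern are Ellentuck open -/
theorem eoN {F : ℕ → ℤ} (hF : Function.Injective F) : EO {z : Set ℕ | ¬ ExN r χ q a (F '' z)} := by
  intro z hz hzi
  simp only [Set.mem_ofPred_eq] at hz
  unfold ExN at hz
  rw [not_forall] at hz
  obtain ⟨R, hR⟩ := hz
  obtain ⟨N, hN⟩ := preimage_bdd hF R
  obtain ⟨u, hu1, hu2, hu3, -⟩ := exists_init hzi N 0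
  refine ⟨u, hu1, fun w hw hE => ?_⟩
  refine hR (congrN (E := F '' w) (fun y hy => ?_) (hE R))
  constructor
  · rintro ⟨i, hi, rfl⟩
    refine ⟨i, ?_, rfl⟩
    rcases hw.2.2 i hi with h | h
    · exact hu3 i h
    · exact h.1
  · rintro ⟨i, hi, rfl⟩
    exact ⟨i, hw.2.1 i (hu2 i hi (hN i hy)), rfl⟩

/-- every infinite set of shifts contains an infinite exact pattern -/
theorem inf_core (hBM : S_C) (hsq : Squarefree q) {F : ℕ → ℤ} (hF : Function.Injective F)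
    (Y : Set ℕ) (hY : Y.Infinite) (hp : ∀ i ∈ Y, IsCoprime (a + F i) (q : ℤ)) :
    ∃ V ⊆ Y, V.Infinite ∧ ExN r χ q a (F '' V) := by
  classical
  have hne0 : ∀ j : ℕ, NeZero (j + 3)! := fun j => ⟨Nat.factorial_ne_zero _⟩
  obtain ⟨f, hinj, hfF, hcol⟩ := exists_seq (fun j => ZMod (j + 3)!)
    (fun j (x : ℤ) => (x : ZMod (j + 3)!)) (F '' Y) (hY.image hF.injOn)
  have hBc : ∀ j i, j ≤ i → f i ≡ f j [ZMOD ((j + 3)! : ℕ)] := by
    intro j i hji
    exact (ZMod.intCast_eq_intCast_iff _ _ _).mp (hcol j i hji)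
  have hadm : ∀ p : ℕ, p.Prime → ¬ p ∣ q → ∃ n : ℤ, ∀ i, ¬ (p : ℤ) ∣ n + f i := by
    intro p hp _
    obtain ⟨n, hn⟩ := avoid (fun _ => 1) f (fun i => isCoprime_one_left) (fun _ _ _ => Int.ModEq.refl _) hBc p hp
    refine ⟨n, fun i => ?_⟩
    have h1 := hn i
    rwa [one_mul] at h1
  have hcop : ∀ i, ∀ p : ℕ, p.Prime → p ∣ q → ¬ (p : ℤ) ∣ a + f i := by
    intro i p hp' hpq hd
    obtain ⟨x, hx, hxi⟩ := hfF i
    have h1 := hp x hx
    rw [hxi] at h1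
    have h2 := h1.isUnit_of_dvd' hd (Int.natCast_dvd_natCast.2 hpq)
    rw [Int.isUnit_iff] at h2
    have := hp'.two_le
    omega
  obtain ⟨I, hI, γ, hγ⟩ := infC hBM r χ q a hsq f hinj hcop hadm
  refine ⟨{x ∈ Y | F x ∈ f '' I}, fun x hx => hx.1, ?_, fun R => ?_⟩
  · have h1 : F '' {x ∈ Y | F x ∈ f '' I} = f '' I := by
      ext y
      constructor
      · rintro ⟨x, hx, rfl⟩
        exact hx.2
      · rintro ⟨i, hi, rfl⟩
        obtain ⟨x, hx, hxi⟩ := hfF i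
        exact ⟨x, ⟨hx, ⟨i, hi, hxi.symm⟩⟩, hxi⟩
    intro hfin
    apply (hI.image (f := f) hinj.injOn)
    rw [← h1]
    exact hfin.image F
  · have h1 : F '' {x ∈ Y | F x ∈ f '' I} = f '' I := by
      ext y
      constructor
      · rintro ⟨x, hx, rfl⟩
        exact hx.2
      · rintro ⟨i, hi, rfl⟩
        obtain ⟨x, hx, hxi⟩ := hfF i
        exact ⟨x, ⟨hx, ⟨i, hi, hxi.symm⟩⟩, hxi⟩
    rw [h1]
    obtain ⟨g, hg⟩ : ∃ g : ℤ → Fin (r + 1), ∀ i, g (f i) = γ i := by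
      refine ⟨fun y => if h : ∃ i, f i = y then γ h.choose else 0, fun i => ?_⟩
      have h2 : ∃ i', f i' = f i := ⟨i, rfl⟩
      dsimp only
      rw [dif_pos h2]
      congr 1
      exact hinj h2.choose_spec
    refine ⟨g, CNT_mono ?_ (hγ R)⟩
    rintro x ⟨hx1, hx2⟩
    refine ⟨hx1, fun y hy => ?_⟩
    obtain ⟨h2, h3⟩ := hx2 y hy
    refine ⟨h2, ?_⟩
    rintro ⟨i, hi, hiy⟩
    rw [h3 i hi hiy, ← hiy, hg]

/-- every infinite set of shifts contains an infinite set all of whose subsets are exact patterns -/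
theorem coreN (hBM : S_C) (hsq : Squarefree q) {F : ℕ → ℤ} (hF : Function.Injective F) (Y : Set ℕ)
    (hY : Y.Infinite) (hp : ∀ i ∈ Y, IsCoprime (a + F i) (q : ℤ)) :
    ∃ Y' ⊆ Y, Y'.Infinite ∧ ∀ U ⊆ Y', ExN r χ q a (F '' U) := by
  obtain ⟨Y', h1, h2, h3⟩ := (eoN (r := r) (χ := χ) (q := q) (a := a) hF).cr ∅ Y hY
  have h4 : ∀ z ∈ Nb ∅ Y', ExN r χ q a (F '' z) := by
    rcases h3 with h3 | h3
    · exfalso
      obtain ⟨V, hV1, hV2, hV3⟩ := inf_core (r := r) (χ := χ) hBM hsq hF Y' h2 (fun i hi => hp i (h1 hi))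
      exact h3 V ⟨hV2, by simp, fun n hn => Or.inr ⟨hV1 hn, by simp⟩⟩ hV3
    · intro z hz
      by_contra h
      exact h3 z hz h
  refine ⟨Y', h1, h2, fun U hU R => ?_⟩
  obtain ⟨N, hN⟩ := preimage_bdd hF R
  have h5 : (Y' \ Set.Iio N).Infinite := h2.sdiff (Set.finite_Iio N)
  have h6 := h4 (U ∪ (Y' \ Set.Iio N)) ⟨h5.mono Set.subset_union_right, by simp, fun n hn => by
    right
    refine ⟨?_, by simp⟩
    rcases hn with h | h
    · exact hU h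
    · exact h.1⟩
  refine congrN (fun y hy => ?_) (h6 R)
  constructor
  · rintro ⟨i, hi, rfl⟩
    rcases hi with hi | hi
    · exact ⟨i, hi, rfl⟩
    · exact absurd (hN i hy) hi.2
  · rintro ⟨i, hi, rfl⟩
    exact ⟨i, Or.inl hi, rfl⟩

theorem exists_coprime (hq : Squarefree q) (a : ℤ) : {y : ℕ | IsCoprime (a + (y : ℤ)) (q : ℤ)}.Infinite := by
  have hq0 : 0 < q := Nat.pos_of_ne_zero (by rintro rfl; exact not_squarefree_zero hq)
  rw [Set.infinite_iff_exists_gt]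
  intro b
  refine ⟨(1 - a + (q : ℤ) * (a.natAbs + b + 1)).toNat, ?_, ?_⟩
  · have h0 : 0 ≤ 1 - a + (q : ℤ) * (a.natAbs + b + 1) := by
      have h1 : (1 : ℤ) ≤ q := by exact_mod_cast hq0
      have h2 : a ≤ a.natAbs := Int.le_natAbs
      nlinarith [Int.natCast_nonneg b, Int.natCast_nonneg a.natAbs]
    show IsCoprime (a + (((1 - a + (q : ℤ) * (a.natAbs + b + 1)).toNat : ℕ) : ℤ)) (q : ℤ)
    rw [Int.toNat_of_nonneg h0]
    exact ⟨1, -(a.natAbs + b + 1), by ring⟩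
  · have h1 : (1 : ℤ) ≤ q := by exact_mod_cast hq0
    have h2 : a ≤ a.natAbs := Int.le_natAbs
    have h3 : (b : ℤ) < 1 - a + (q : ℤ) * (a.natAbs + b + 1) := by
      nlinarith [Int.natCast_nonneg b, Int.natCast_nonneg a.natAbs]
    omega

/-- the empty pattern -/
theorem exN_empty (hBM : S_C) (hsq : Squarefree q) : ExN r χ q a ∅ := by
  obtain ⟨Y', -, -, h⟩ := coreN (r := r) (χ := χ) (a := a) hBM hsq (F := fun y => (y : ℤ))
    (fun _ _ h => by simpa using h) _ (exists_coprime hsq a) (fun i hi => hi)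
  simpa using h ∅ (Set.empty_subset _)

/-- one step: shifts some of which are not coprime to `q` -/
theorem stepN (hBM : S_C) (hsq : Squarefree q) {F : ℕ → ℤ} (hF : Function.Injective F) (Y : Set ℕ)
    (hY : Y.Infinite) :
    ∃ Y' ⊆ Y, Y'.Infinite ∧ ∀ U ⊆ Y', (∀ i ∈ U, IsCoprime (a + F i) (q : ℤ)) →
      ExN r χ q a (F '' U) := by
  by_cases h : {i ∈ Y | IsCoprime (a + F i) (q : ℤ)}.Infinite
  · obtain ⟨Y', h1, h2, h3⟩ := coreN (r := r) (χ := χ) hBM hsq hF _ h (fun i hi => hi.2)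
    exact ⟨Y', fun i hi => (h1 hi).1, h2, fun U hU _ => h3 U hU⟩
  · rw [Set.not_infinite] at h
    refine ⟨_, Set.sdiff_subset, hY.sdiff h, fun U hU hU2 => ?_⟩
    have : U = ∅ := by
      rw [Set.eq_empty_iff_forall_notMem]
      intro i hi
      exact (hU hi).2 ⟨(hU hi).1, hU2 i hi⟩
    rw [this, Set.image_empty]
    exact exN_empty hBM hsq

/-- one choice of the colours for all distances -/
theorem strong {E : Set ℤ} (h : ExN r χ q a E) :
    ∃ γ : ℤ → Fin (r + 1), ∀ R : ℕ, CNT (At r χ q a E γ R) := by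
  classical
  choose g hg using h
  set U : Ultrafilter ℕ := Ultrafilter.of atTop with hU
  have hUle : (U : Filter ℕ) ≤ atTop := Ultrafilter.of_le _
  have h1 : ∀ y : ℤ, ∃ c : Fin (r + 1), ∀ᶠ R in (U : Filter ℕ), g R y = c := by
    intro y
    obtain ⟨c, hc⟩ := Ultrafilter.eq_pure_of_finite (U.map (fun R => g R y))
    refine ⟨c, ?_⟩
    have h2 : ({c} : Set (Fin (r + 1))) ∈ U.map (fun R => g R y) := by
      rw [hc]
      exact Set.mem_singleton c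
    exact h2
  choose γ hγ using h1
  refine ⟨γ, fun R => ?_⟩
  have h2 : ∀ᶠ R' in (U : Filter ℕ), ∀ y ∈ Finset.Icc (-(R : ℤ)) R, g R' y = γ y := by
    rw [Filter.eventually_all_finset]
    intro y _
    exact hγ y
  have h3 : ∀ᶠ R' in (U : Filter ℕ), R ≤ R' := hUle (eventually_ge_atTop R)
  obtain ⟨R', h4, h5⟩ := (h2.and h3).exists
  refine CNT_mono ?_ (hg R')
  rintro x ⟨hx1, hx2⟩
  refine ⟨hx1, fun y hy => ?_⟩
  obtain ⟨h6, h7⟩ := hx2 y (hy.trans (by exact_mod_cast h5))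
  refine ⟨h6, fun hE => ?_⟩
  rw [h7 hE]
  exact h4 y (Finset.mem_Icc.2 (abs_le.1 hy))

/-- the theorem for countably many injective families of shifts -/
theorem mainN (hBM : S_C) (r : ℕ → ℕ) (χ : ∀ j, ℕ → Fin (r j + 1)) (F : ℕ → ℕ → ℤ)
    (hF : ∀ j, Function.Injective (F j)) (q : ℕ → ℕ) (hq : ∀ j, Squarefree (q j)) (a : ℕ → ℤ) :
    ∃ b : ℕ → ℕ, StrictMono b ∧ ∀ (j : ℕ) (I : Set ℕ),
      (∀ i ∈ I, j ≤ i ∧ IsCoprime (a j + F j (b i)) (q j : ℤ)) →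
      ∃ γ : ℤ → Fin (r j + 1), ∀ R : ℕ, CNT (At (r j) (χ j) (q j) (a j) ((fun i => F j (b i)) '' I) γ R) := by
  have hstep : ∀ (j : ℕ) (Y : {Y : Set ℕ // Y.Infinite}), ∃ Z : {Y : Set ℕ // Y.Infinite},
      Z.1 ⊆ Y.1 ∧ ∀ U ⊆ Z.1, (∀ i ∈ U, IsCoprime (a j + F j i) (q j : ℤ)) →
        ExN (r j) (χ j) (q j) (a j) (F j '' U) := by
    intro j Y
    obtain ⟨Z, h1, h2, h3⟩ := stepN (r := r j) (χ := χ j) (a := a j) hBM (hq j) (hF j) Y.1 Y.2
    exact ⟨⟨Z, h2⟩, h1, h3⟩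
  choose nx hnx1 hnx2 using hstep
  let s : ℕ → {Y : Set ℕ // Y.Infinite} := fun k =>
    Nat.rec (nx 0 ⟨Set.univ, Set.infinite_univ⟩) (fun j Y => nx (j + 1) Y) k
  have hs : ∀ k, s (k + 1) = nx (k + 1) (s k) := fun k => rfl
  have hgood : ∀ k, ∀ U ⊆ (s k).1,
      (∀ i ∈ U, IsCoprime (a k + F k i) (q k : ℤ)) → ExN (r k) (χ k) (q k) (a k) (F k '' U) := by
    intro k
    rcases k with _ | k
    · exact hnx2 0 _
    · rw [hs]
      exact hnx2 (k + 1) _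
  have hanti : Antitone fun k => (s k).1 := antitone_nat_of_succ_le fun k => by
    show (s (k + 1)).1 ⊆ (s k).1
    rw [hs]
    exact hnx1 _ _
  have hex : ∀ (k m : ℕ), ∃ i ∈ (s k).1, m < i := fun k m => (s k).2.exists_gt m
  choose g hg1 hg2 using hex
  let b : ℕ → ℕ := fun k => Nat.rec (g 0 0) (fun j x => g (j + 1) x) k
  have hb : ∀ k, b (k + 1) = g (k + 1) (b k) := fun k => rfl
  have hbm : StrictMono b := strictMono_nat_of_lt_succ fun k => by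
    rw [hb]
    exact hg2 _ _
  have hbs : ∀ k, b k ∈ (s k).1 := by
    intro k
    rcases k with _ | k
    · exact hg1 0 0
    · exact hg1 (k + 1) (b k)
  refine ⟨b, hbm, fun j I hI => strong ?_⟩
  have h1 : (fun i => F j (b i)) '' I = F j '' (b '' I) := by
    rw [Set.image_image]
  rw [h1]
  apply hgood j
  · rintro _ ⟨i, hi, rfl⟩
    exact hanti (hI i hi).1 (hbs i)
  · rintro _ ⟨i, hi, rfl⟩
    exact (hI i hi).2

end Pool.Agent.V5helper49.NI.C
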