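import Pool.Agent.V5helper49.NI.Setup

/-!
# Infinite exact patterns along narrow progressions (helper49): the limit over the number of blocks
-/

set_option autoImplicit false

open Finset Filter Topology

namespace Pool.Agent.V5helper49.NI

open Pool.Agent.Y520.NP (NAP NAP_map NAP_mono Std S_BM BMg)
open Pool.Agent.H361R2.Inf (FMeas comb)

/-- limit of finitely additive measures along an ultrafilter -/
theorem limit (M : ℕ → Set ℕ → ℝ) (hM : ∀ J, FMeas (M J)) (hM2 : ∀ J, M J Set.univ ≤ 2) :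
    ∃ m : Set ℕ → ℝ, FMeas m ∧
      (∀ (S : Set ℕ) (c : ℝ), (∃ J₀ : ℕ, ∀ J, J₀ ≤ J → c ≤ M J S) → c ≤ m S) ∧
      ∀ (S : Set ℕ) (J₀ : ℕ), 0 < m S → ∃ J, J₀ ≤ J ∧ 0 < M J S := by
  set U : Ultrafilter ℕ := Ultrafilter.of atTop with hU
  have hUle : (U : Filter ℕ) ≤ atTop := Ultrafilter.of_le _
  have hlim : ∀ S : Set ℕ, ∃ l : ℝ, Tendsto (fun J => M J S) U (𝓝 l) := by
    intro S
    have hc1 : IsCompact (Set.Icc (0 : ℝ) 2) := isCompact_Icc
    have h1 : ((U.map (fun J => M J S) : Ultrafilter ℝ) : Filter ℝ) ≤ 𝓟 (Set.Icc (0 : ℝ) 2) := by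
      rw [le_principal_iff, Ultrafilter.mem_coe, Ultrafilter.mem_map]
      apply Filter.univ_mem'
      intro J
      exact ⟨(hM J).nonneg S,
        (Pool.Agent.H361R2.Inf.T1.mono (hM J) (Set.subset_univ S)).trans (hM2 J)⟩
    obtain ⟨l, _, hl⟩ := hc1.ultrafilter_le_nhds _ h1
    exact ⟨l, hl⟩
  choose m hm using hlim
  refine ⟨m, ⟨fun S => ?_, fun S T hST => ?_, fun S hS => ?_⟩, fun S c hc => ?_, fun S J₀ hS => ?_⟩
  · exact ge_of_tendsto' (hm S) fun J => (hM J).nonneg S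
  · have h1 := (hm S).add (hm T)
    have h2 := hm (S ∪ T)
    have h3 : (fun J => M J (S ∪ T)) = fun J => M J S + M J T := by
      ext J
      exact (hM J).add S T hST
    rw [h3] at h2
    exact tendsto_nhds_unique h2 h1
  · have h1 := hm S
    have h2 : (fun J => M J S) = fun _ => 0 := by
      ext J
      exact (hM J).fin S hS
    rw [h2] at h1
    exact tendsto_nhds_unique h1 tendsto_const_nhds
  · obtain ⟨J₀, hJ₀⟩ := hc
    apply ge_of_tendsto (hm S)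
    have h1 : ∀ᶠ J in (U : Filter ℕ), J₀ ≤ J := hUle (eventually_ge_atTop J₀)
    filter_upwards [h1] with J hJ
    exact hJ₀ J hJ
  · have h2 : ∀ᶠ J in (U : Filter ℕ), 0 < M J S := (hm S).eventually (lt_mem_nhds hS)
    have h3 : ∀ᶠ J in (U : Filter ℕ), J₀ ≤ J := hUle (eventually_ge_atTop J₀)
    obtain ⟨J, hJ1, hJ2⟩ := (h2.and h3).exists
    exact ⟨J, hJ2, hJ1⟩

/-- infinite exact coloured patterns, for a good sequence of shifts -/
theorem infN (hBM : S_BM) (r : ℕ) (χ : ℕ → Fin (r + 1)) (q : ℕ) (a : ℤ) (hsq : Squarefree q)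
    (f : ℕ → ℤ) (hinj : Function.Injective f)
    (hcop : ∀ i, ∀ p : ℕ, p.Prime → p ∣ q → ¬ (p : ℤ) ∣ a + f i)
    (hadm : ∀ p : ℕ, p.Prime → ¬ p ∣ q → ∃ n : ℤ, ∀ i, ¬ (p : ℤ) ∣ n + f i) :
    ∃ I : Set ℕ, I.Infinite ∧ ∃ γ : ℕ → Fin (r + 1), ∀ R : ℕ,
      NAP {x : ℕ | (x : ℤ) ≡ a [ZMOD q] ∧ ∀ y : ℤ, |y| ≤ R →
        (Nat.Prime ((x : ℤ) + y).toNat ↔ ∃ i ∈ I, f i = y) ∧
        ∀ i ∈ I, f i = y → χ ((x : ℤ) + y).toNat = γ i} := by
  classical
  obtain ⟨off, hoff, h0, hz⟩ := hBM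
  have hBMg : ∀ J, BMg (off J) J (fun s => Ico (off s) (off (s + 1))) 2 (1 / 10) := by
    intro J
    obtain ⟨z, hz'⟩ := hz J
    refine ⟨z, fun W a0 t hstd => ?_⟩
    obtain ⟨h1, h2, h3, h4, h5⟩ := hstd
    exact hz' W a0 t h1 h2 h3 h4 h5
  have hper := fun J : ℕ => perJ (hBMg J) (fun s hs i hi => lt_of_lt_of_le (mem_Ico.1 hi).2
    (hoff.monotone (Nat.succ_le_of_lt hs))) q a hsq f hinj hcop hadm J
  choose M hM hM2 hMc hMS using hper
  obtain ⟨m, hm, hm1, hm2⟩ := limit M hM hM2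
  obtain ⟨r1, hr1⟩ : ∃ r1, r1 = r + 1 := ⟨_, rfl⟩
  have hr0 : 0 < r1 := by omega
  obtain ⟨pt, hpt⟩ : ∃ pt : ℕ → ℕ → ℕ, pt = fun (x : ℕ) (i : ℕ) => ((x : ℤ) + f i).toNat := ⟨_, rfl⟩
  obtain ⟨E, hE⟩ : ∃ E : ℕ → Set ℕ, E = fun k =>
    {x : ℕ | Nat.Prime (pt x (k / r1)) ∧ ((χ (pt x (k / r1)) : Fin (r + 1)) : ℕ) = k % r1} := ⟨_, rfl⟩
  have hoff' : StrictMono (fun s => r1 * off s) := fun s t hst =>
    Nat.mul_lt_mul_of_pos_left (hoff hst) hr0
  obtain ⟨I', hI', hcyl⟩ := comb m hm (fun s => r1 * off s) hoff' (by simp [h0]) E (1 / 10)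
    (by norm_num) (by
      intro t
      apply hm1
      refine ⟨t + 1, fun J hJ => (hMc J t (by omega)).trans ?_⟩
      apply Pool.Agent.H361R2.Inf.T1.mono (hM J)
      rintro x ⟨i, hi, hx⟩
      rw [mem_Ico] at hi
      have hlt : ((χ (pt x i) : Fin (r + 1)) : ℕ) < r1 := by
        rw [hr1]
        exact (χ (pt x i)).2
      have e1 : (i * r1 + (χ (pt x i) : ℕ)) / r1 = i := by
        rw [Nat.add_comm, Nat.add_mul_div_right _ _ hr0, Nat.div_eq_of_lt hlt, zero_add]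
      have e2 : (i * r1 + (χ (pt x i) : ℕ)) % r1 = (χ (pt x i) : ℕ) := by
        rw [Nat.add_comm, Nat.add_mul_mod_self_right, Nat.mod_eq_of_lt hlt]
      refine ⟨i * r1 + (χ (pt x i) : ℕ), ?_, ?_⟩
      · rw [mem_Ico]
        constructor
        · calc r1 * off t ≤ r1 * i := Nat.mul_le_mul_left _ hi.1
            _ = i * r1 := mul_comm _ _
            _ ≤ _ := Nat.le_add_right _ _
        · calc i * r1 + (χ (pt x i) : ℕ) < i * r1 + r1 := by omega
            _ = r1 * (i + 1) := by ring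
            _ ≤ r1 * off (t + 1) := Nat.mul_le_mul_left _ hi.2
      · rw [hE]
        show Nat.Prime (pt x ((i * r1 + (χ (pt x i) : ℕ)) / r1)) ∧
          ((χ (pt x ((i * r1 + (χ (pt x i) : ℕ)) / r1)) : Fin (r + 1)) : ℕ) = _ % r1
        rw [e1, e2]
        refine ⟨?_, rfl⟩
        rw [hpt]
        exact hx)
  -- the set of indices
  obtain ⟨I, hI⟩ : ∃ I : Set ℕ, I = (fun k => k / r1) '' I' := ⟨_, rfl⟩
  have hIinf : I.Infinite := by
    intro hfin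
    obtain ⟨N, hN⟩ := hfin.bddAbove
    apply hI'
    apply (Set.finite_Iio ((N + 1) * r1)).subset
    intro k hk
    have h1 : k / r1 ≤ N := hN (by rw [hI]; exact ⟨k, hk, rfl⟩)
    rw [Set.mem_Iio]
    exact (Nat.div_lt_iff_lt_mul hr0).1 (by omega)
  have hsel : ∀ i : ℕ, ∃ k : ℕ, i ∈ I → k ∈ I' ∧ k / r1 = i := by
    intro i
    by_cases hi : i ∈ I
    · rw [hI] at hi
      obtain ⟨k, hk, hki⟩ := hi
      exact ⟨k, fun _ => ⟨hk, hki⟩⟩
    · exact ⟨0, fun h => absurd h hi⟩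
  choose κ hκ using hsel
  have hmodlt : ∀ k, k % r1 < r + 1 := fun k => by
    have := Nat.mod_lt k hr0
    omega
  refine ⟨I, hIinf, fun i => ⟨κ i % r1, hmodlt _⟩, fun R => ?_⟩
  obtain ⟨N1, hN1⟩ : ∃ N : ℕ, ∀ i, |f i| ≤ R → i < N := by
    have h1 : (f ⁻¹' (Set.Icc (-(R : ℤ)) R)).Finite :=
      (Set.finite_Icc _ _).preimage hinj.injOn
    obtain ⟨N, hN⟩ := h1.bddAbove
    exact ⟨N + 1, fun i hi => Nat.lt_succ_of_le (hN (abs_le.1 hi))⟩
  obtain ⟨J, hJ, hpos⟩ := hm2 _ (max N1 R) (hcyl (N1 * r1))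
  have hJ1 : N1 ≤ J := (le_max_left _ _).trans hJ
  have hJ2 : R ≤ J := (le_max_right _ _).trans hJ
  refine NAP_mono ?_ (hMS J _ hpos)
  rintro x ⟨hx1, hx2, hx3⟩
  refine ⟨hx2, fun y hy => ?_⟩
  have hk : ∀ i < N1, ∀ k, k / r1 = i → k < N1 * r1 := fun i hi k hk =>
    (Nat.div_lt_iff_lt_mul hr0).1 (by omega)
  have hmemE : ∀ i k, k / r1 = i → (x ∈ E k ↔ Nat.Prime (pt x i) ∧ ((χ (pt x i) : Fin (r + 1)) : ℕ) = k % r1) := by
    intro i k hki
    rw [hE]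
    show Nat.Prime (pt x (k / r1)) ∧ ((χ (pt x (k / r1)) : Fin (r + 1)) : ℕ) = k % r1 ↔ _
    rw [hki]
  have hptxy : ∀ i, f i = y → pt x i = ((x : ℤ) + y).toNat := by
    intro i hi
    rw [hpt, ← hi]
  refine ⟨?_, ?_⟩
  · by_cases hfy : ∃ i, f i = y
    · obtain ⟨i, hi⟩ := hfy
      have hiN : i < N1 := hN1 i (by rw [hi]; exact hy)
      constructor
      · intro hp
        refine ⟨i, ?_, hi⟩
        rw [← hptxy i hi] at hp
        have hlt : ((χ (pt x i) : Fin (r + 1)) : ℕ) < r1 := by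
          rw [hr1]
          exact (χ (pt x i)).2
        have e1 : (i * r1 + (χ (pt x i) : ℕ)) / r1 = i := by
          rw [Nat.add_comm, Nat.add_mul_div_right _ _ hr0, Nat.div_eq_of_lt hlt, zero_add]
        have e2 : (i * r1 + (χ (pt x i) : ℕ)) % r1 = (χ (pt x i) : ℕ) := by
          rw [Nat.add_comm, Nat.add_mul_mod_self_right, Nat.mod_eq_of_lt hlt]
        have h1 : x ∈ E (i * r1 + (χ (pt x i) : ℕ)) := by
          rw [hmemE i _ e1, e2]
          exact ⟨hp, rfl⟩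
        have h2 := (hx1 _ (hk i hiN _ e1)).1 h1
        rw [hI]
        exact ⟨_, h2, e1⟩
      · rintro ⟨i', hi', hi'y⟩
        have h1 : i' = i := hinj (hi'y.trans hi.symm)
        subst h1
        obtain ⟨h2, h3⟩ := hκ i' hi'
        have h4 := (hx1 _ (hk i' hiN _ h3)).2 h2
        rw [hmemE i' _ h3, hptxy i' hi] at h4
        exact h4.1
    · constructor
      · intro hp
        push Not at hfy
        exact absurd hp (hx3 y (hy.trans (by exact_mod_cast hJ2)) (fun i _ h => hfy i h.symm))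
      · rintro ⟨i, _, hi⟩
        exact absurd ⟨i, hi⟩ hfy
  · intro i hi hiy
    have hiN : i < N1 := hN1 i (by rw [hiy]; exact hy)
    obtain ⟨h2, h3⟩ := hκ i hi
    have h4 := (hx1 _ (hk i hiN _ h3)).2 h2
    rw [hmemE i _ h3, hptxy i hiy] at h4
    exact Fin.ext h4.2

end Pool.Agent.V5helper49.NI
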