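import Pool.Agent.V5helper49.NI.Inf
import Pool.Agent.V5helper49.NI.BmC

/-!
# Infinite exact patterns between cubes (helper49)

The proofs of `NI.Setup` and `NI.Inf` with `CNT` instead of `NAP`.
-/

set_option autoImplicit false

open Finset Filter Topology

namespace Pool.Agent.V5helper49.NI

open Pool.Agent.Y520.NP (Std)
open Pool.Agent.H361R2.Inf (FMeas comb)
open Pool.Agent.V5helper49.CB (CNT CNT_mono CNT_map)

/-- measures with exact patterns, for one number of blocks -/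
theorem perJC {K J : ℕ} {blk : ℕ → Finset ℕ} {tot c : ℝ} (hBM : BMC K J blk tot c)
    (hblk : ∀ s < J, ∀ i ∈ blk s, i < K) (q : ℕ) (a : ℤ) (hsq : Squarefree q) (f : ℕ → ℤ)
    (hinj : Function.Injective f)
    (hcop : ∀ i, ∀ p : ℕ, p.Prime → p ∣ q → ¬ (p : ℤ) ∣ a + f i)
    (hadm : ∀ p : ℕ, p.Prime → ¬ p ∣ q → ∃ n : ℤ, ∀ i, ¬ (p : ℤ) ∣ n + f i) (R : ℕ) :
    ∃ M : Set ℕ → ℝ, FMeas M ∧ M Set.univ ≤ tot ∧
      (∀ s < J, c ≤ M {x : ℕ | ∃ i ∈ blk s, Nat.Prime ((x : ℤ) + f i).toNat}) ∧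
      ∀ S : Set ℕ, 0 < M S → CNT {x : ℕ | x ∈ S ∧ (x : ℤ) ≡ a [ZMOD q] ∧ ∀ y : ℤ, |y| ≤ R →
        (∀ i < K, y ≠ f i) → ¬ Nat.Prime ((x : ℤ) + y).toNat} := by
  obtain ⟨z, hz⟩ := hBM
  obtain ⟨W, a0, T, t, hstd, ht, hqW, ha0, n₁, hn₁⟩ := setup' (K := K) z q a hsq f
    (fun i _ j _ hij => hinj hij) (fun i _ => hcop i) (fun p hp hpq => by
      obtain ⟨n, hn⟩ := hadm p hp hpq
      exact ⟨n, fun i _ => hn i⟩) R
  obtain ⟨m, hm, htot, hc, hCNT⟩ := hz W a0 t hstd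
  refine ⟨fun S => m {n | n + T ∈ S}, ⟨fun A => hm.nonneg _, fun A B hAB => ?_, fun A hA => ?_⟩, ?_,
    fun s hs => ?_, fun S hS => ?_⟩
  · have h1 := hm.add {n | n + T ∈ A} {n | n + T ∈ B} (by
      rw [Set.disjoint_left] at hAB ⊢
      intro n h2 h3
      exact hAB h2 h3)
    rw [← h1]
    rfl
  · apply hm.fin
    exact hA.preimage (f := fun n => n + T) (fun x _ y _ hxy => Nat.add_right_cancel hxy)
  · exact htot
  · refine (hc s hs).trans (le_of_eq ?_)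
    show m _ = m _
    congr 1
    ext n
    simp only [Set.mem_ofPred_eq]
    have e : ∀ i ∈ blk s, (((n + T : ℕ) : ℤ) + f i).toNat = n + t i := by
      intro i hi
      have : (((n + T : ℕ) : ℤ) + f i) = ((n + t i : ℕ) : ℤ) := by
        push_cast
        rw [ht i (hblk s hs i hi)]
        ring
      rw [this, Int.toNat_natCast]
    constructor
    · rintro ⟨i, hi, h⟩
      refine ⟨i, hi, ?_⟩
      rw [e i hi]
      exact h
    · rintro ⟨i, hi, h⟩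
      refine ⟨i, hi, ?_⟩
      rw [e i hi] at h
      exact h
  · refine CNT_map T n₁ ?_ (hCNT _ hS)
    rintro n ⟨hn1, hn2⟩ hn3
    refine ⟨hn1, ?_, fun y hy hyK => ?_⟩
    · have h1 : (q : ℤ) ∣ (n : ℤ) - a0 := by
        have h3 : (n : ℤ) ≡ a0 [ZMOD W] := Int.natCast_modEq_iff.2 hn2
        exact (Int.natCast_dvd_natCast.2 hqW).trans h3.symm.dvd
      have h2 : (q : ℤ) ∣ ((n + T : ℕ) : ℤ) - a := by
        have := dvd_add h1 ha0
        have e : (n : ℤ) - a0 + (a0 + T - a) = ((n + T : ℕ) : ℤ) - a := by push_cast; ring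
        rwa [e] at this
      exact (Int.modEq_iff_dvd.2 h2).symm
    · exact hn₁ n hn3 hn2 y hy hyK

/-- infinite exact coloured patterns, for a good sequence of shifts -/
theorem infC (hBM : ∃ off : ℕ → ℕ, StrictMono off ∧ off 0 = 0 ∧
    ∀ J : ℕ, BMC (off J) J (fun s => Ico (off s) (off (s + 1))) 2 (1 / 10)) (r : ℕ) (χ : ℕ → Fin (r + 1)) (q : ℕ) (a : ℤ) (hsq : Squarefree q)
    (f : ℕ → ℤ) (hinj : Function.Injective f)
    (hcop : ∀ i, ∀ p : ℕ, p.Prime → p ∣ q → ¬ (p : ℤ) ∣ a + f i)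
    (hadm : ∀ p : ℕ, p.Prime → ¬ p ∣ q → ∃ n : ℤ, ∀ i, ¬ (p : ℤ) ∣ n + f i) :
    ∃ I : Set ℕ, I.Infinite ∧ ∃ γ : ℕ → Fin (r + 1), ∀ R : ℕ,
      CNT {x : ℕ | (x : ℤ) ≡ a [ZMOD q] ∧ ∀ y : ℤ, |y| ≤ R →
        (Nat.Prime ((x : ℤ) + y).toNat ↔ ∃ i ∈ I, f i = y) ∧
        ∀ i ∈ I, f i = y → χ ((x : ℤ) + y).toNat = γ i} := by
  classical
  obtain ⟨off, hoff, h0, hz⟩ := hBM
  have hper := fun J : ℕ => perJC (hz J) (fun s hs i hi => lt_of_lt_of_le (mem_Ico.1 hi).2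
    (hoff.monotone (Nat.succ_le_of_lt hs))) q a hsq f hinj hcop hadm J
  choose M hM hM2 hMc hMS using hper
  obtain ⟨m, hm, hm1, hm2⟩ := limit M hM hM2
  obtain ⟨r1, hr1⟩ : ∃ r1, r1 = r + 1 := ⟨_, rfl⟩
  have hr0 : 0 < r1 := by omega
  obtain ⟨pt, hpt⟩ : ∃ pt : ℕ → ℕ → ℕ, pt = fun (x : ℕ) (i : ℕ) => ((x : ℤ) + f i).toNat := ⟨_, rfl⟩
  obtain ⟨E, hE⟩ : ∃ E : ℕ → Set ℕ, E = fun k =>
    {x : ℕ | Nat.Prime (pt x (k / r1)) ∧ ((χ (pt x (k / r1)) : Fin (r + 1)) : ℕ) = k % r1} := ⟨_, rfl⟩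
  have hoff' : StrictMono (fun s => r1 * off s) := fun s t hst =>
    Nat.mul_lt_mul_of_pos_left (hoff hst) hr0
  obtain ⟨I', hI', hcyl⟩ := comb m hm (fun s => r1 * off s) hoff' (by simp [h0]) E (1 / 10)
    (by norm_num) (by
      intro t
      apply hm1
      refine ⟨t + 1, fun J hJ => (hMc J t (by omega)).trans ?_⟩
      apply Pool.Agent.H361R2.Inf.T1.mono (hM J)
      rintro x ⟨i, hi, hx⟩
      rw [mem_Ico] at hi
      have hlt : ((χ (pt x i) : Fin (r + 1)) : ℕ) < r1 := by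
        rw [hr1]
        exact (χ (pt x i)).2
      have e1 : (i * r1 + (χ (pt x i) : ℕ)) / r1 = i := by
        rw [Nat.add_comm, Nat.add_mul_div_right _ _ hr0, Nat.div_eq_of_lt hlt, zero_add]
      have e2 : (i * r1 + (χ (pt x i) : ℕ)) % r1 = (χ (pt x i) : ℕ) := by
        rw [Nat.add_comm, Nat.add_mul_mod_self_right, Nat.mod_eq_of_lt hlt]
      refine ⟨i * r1 + (χ (pt x i) : ℕ), ?_, ?_⟩
      · rw [mem_Ico]
        constructor
        · calc r1 * off t ≤ r1 * i := Nat.mul_le_mul_left _ hi.1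
            _ = i * r1 := mul_comm _ _
            _ ≤ _ := Nat.le_add_right _ _
        · calc i * r1 + (χ (pt x i) : ℕ) < i * r1 + r1 := by omega
            _ = r1 * (i + 1) := by ring
            _ ≤ r1 * off (t + 1) := Nat.mul_le_mul_left _ hi.2
      · rw [hE]
        show Nat.Prime (pt x ((i * r1 + (χ (pt x i) : ℕ)) / r1)) ∧
          ((χ (pt x ((i * r1 + (χ (pt x i) : ℕ)) / r1)) : Fin (r + 1)) : ℕ) = _ % r1
        rw [e1, e2]
        refine ⟨?_, rfl⟩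
        rw [hpt]
        exact hx)
  -- the set of indices
  obtain ⟨I, hI⟩ : ∃ I : Set ℕ, I = (fun k => k / r1) '' I' := ⟨_, rfl⟩
  have hIinf : I.Infinite := by
    intro hfin
    obtain ⟨N, hN⟩ := hfin.bddAbove
    apply hI'
    apply (Set.finite_Iio ((N + 1) * r1)).subset
    intro k hk
    have h1 : k / r1 ≤ N := hN (by rw [hI]; exact ⟨k, hk, rfl⟩)
    rw [Set.mem_Iio]
    exact (Nat.div_lt_iff_lt_mul hr0).1 (by omega)
  have hsel : ∀ i : ℕ, ∃ k : ℕ, i ∈ I → k ∈ I' ∧ k / r1 = i := by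
    intro i
    by_cases hi : i ∈ I
    · rw [hI] at hi
      obtain ⟨k, hk, hki⟩ := hi
      exact ⟨k, fun _ => ⟨hk, hki⟩⟩
    · exact ⟨0, fun h => absurd h hi⟩
  choose κ hκ using hsel
  have hmodlt : ∀ k, k % r1 < r + 1 := fun k => by
    have := Nat.mod_lt k hr0
    omega
  refine ⟨I, hIinf, fun i => ⟨κ i % r1, hmodlt _⟩, fun R => ?_⟩
  obtain ⟨N1, hN1⟩ : ∃ N : ℕ, ∀ i, |f i| ≤ R → i < N := by
    have h1 : (f ⁻¹' (Set.Icc (-(R : ℤ)) R)).Finite :=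
      (Set.finite_Icc _ _).preimage hinj.injOn
    obtain ⟨N, hN⟩ := h1.bddAbove
    exact ⟨N + 1, fun i hi => Nat.lt_succ_of_le (hN (abs_le.1 hi))⟩
  obtain ⟨J, hJ, hpos⟩ := hm2 _ (max N1 R) (hcyl (N1 * r1))
  have hJ1 : N1 ≤ J := (le_max_left _ _).trans hJ
  have hJ2 : R ≤ J := (le_max_right _ _).trans hJ
  refine CNT_mono ?_ (hMS J _ hpos)
  rintro x ⟨hx1, hx2, hx3⟩
  refine ⟨hx2, fun y hy => ?_⟩
  have hk : ∀ i < N1, ∀ k, k / r1 = i → k < N1 * r1 := fun i hi k hk =>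
    (Nat.div_lt_iff_lt_mul hr0).1 (by omega)
  have hmemE : ∀ i k, k / r1 = i → (x ∈ E k ↔ Nat.Prime (pt x i) ∧ ((χ (pt x i) : Fin (r + 1)) : ℕ) = k % r1) := by
    intro i k hki
    rw [hE]
    show Nat.Prime (pt x (k / r1)) ∧ ((χ (pt x (k / r1)) : Fin (r + 1)) : ℕ) = k % r1 ↔ _
    rw [hki]
  have hptxy : ∀ i, f i = y → pt x i = ((x : ℤ) + y).toNat := by
    intro i hi
    rw [hpt, ← hi]
  refine ⟨?_, ?_⟩
  · by_cases hfy : ∃ i, f i = y
    · obtain ⟨i, hi⟩ := hfy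
      have hiN : i < N1 := hN1 i (by rw [hi]; exact hy)
      constructor
      · intro hp
        refine ⟨i, ?_, hi⟩
        rw [← hptxy i hi] at hp
        have hlt : ((χ (pt x i) : Fin (r + 1)) : ℕ) < r1 := by
          rw [hr1]
          exact (χ (pt x i)).2
        have e1 : (i * r1 + (χ (pt x i) : ℕ)) / r1 = i := by
          rw [Nat.add_comm, Nat.add_mul_div_right _ _ hr0, Nat.div_eq_of_lt hlt, zero_add]
        have e2 : (i * r1 + (χ (pt x i) : ℕ)) % r1 = (χ (pt x i) : ℕ) := by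
          rw [Nat.add_comm, Nat.add_mul_mod_self_right, Nat.mod_eq_of_lt hlt]
        have h1 : x ∈ E (i * r1 + (χ (pt x i) : ℕ)) := by
          rw [hmemE i _ e1, e2]
          exact ⟨hp, rfl⟩
        have h2 := (hx1 _ (hk i hiN _ e1)).1 h1
        rw [hI]
        exact ⟨_, h2, e1⟩
      · rintro ⟨i', hi', hi'y⟩
        have h1 : i' = i := hinj (hi'y.trans hi.symm)
        subst h1
        obtain ⟨h2, h3⟩ := hκ i' hi'
        have h4 := (hx1 _ (hk i' hiN _ h3)).2 h2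
        rw [hmemE i' _ h3, hptxy i' hi] at h4
        exact h4.1
    · constructor
      · intro hp
        push Not at hfy
        exact absurd hp (hx3 y (hy.trans (by exact_mod_cast hJ2)) (fun i _ h => hfy i h.symm))
      · rintro ⟨i, _, hi⟩
        exact absurd ⟨i, hi⟩ hfy
  · intro i hi hiy
    have hiN : i < N1 := hN1 i (by rw [hiy]; exact hy)
    obtain ⟨h2, h3⟩ := hκ i hi
    have h4 := (hx1 _ (hk i hiN _ h3)).2 h2
    rw [hmemE i _ h3, hptxy i hiy] at h4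
    exact Fin.ext h4.2

end Pool.Agent.V5helper49.NI
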